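import Mathlib

/-!
# Two facts on finite dimensional inner product spaces given by a core
-/

set_option autoImplicit false

namespace Pool.Agent.R220.LV

variable {V : Type} [AddCommGroup V] [Module ℝ V] [FiniteDimensional ℝ V]

theorem abs_top (cd : InnerProductSpace.Core ℝ V) (S : Submodule ℝ V)
    (h : ∀ u, (∀ s ∈ S, cd.inner s u = 0) → u = 0) : S = ⊤ := by
  letI : NormedAddCommGroup V := cd.toNormedAddCommGroup
  letI : InnerProductSpace ℝ V := InnerProductSpace.ofCore cd.toCore
  rw [← Submodule.orthogonal_eq_bot_iff, eq_bot_iff]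
  intro u hu
  rw [Submodule.mem_bot]
  exact h u fun s hs => (Submodule.mem_orthogonal S u).1 hu s hs

theorem abs_diag (cd : InnerProductSpace.Core ℝ V) (T : V →ₗ[ℝ] V)
    (hT : ∀ u v, cd.inner (T u) v = cd.inner u (T v)) :
    ∃ (μ : Fin (Module.finrank ℝ V) → ℝ) (e : Fin (Module.finrank ℝ V) → V),
      (∀ i, e i ≠ 0) ∧ (∀ i, T (e i) = μ i • e i) ∧
      ∀ u : V, ∃ c : Fin (Module.finrank ℝ V) → ℝ, u = ∑ i, c i • e i := by
  letI : NormedAddCommGroup V := cd.toNormedAddCommGroup
  letI : InnerProductSpace ℝ V := InnerProductSpace.ofCore cd.toCore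
  have hS : T.IsSymmetric := fun u v => hT u v
  refine ⟨hS.eigenvalues rfl, hS.eigenvectorBasis rfl, ?_, ?_, ?_⟩
  · intro i
    exact (hS.eigenvectorBasis rfl).toBasis.ne_zero i |> fun h => by simpa using h
  · intro i
    have := hS.apply_eigenvectorBasis rfl i
    simpa using this
  · intro u
    refine ⟨fun i => (hS.eigenvectorBasis rfl).repr u i, ?_⟩
    exact ((hS.eigenvectorBasis rfl).sum_repr u).symm

end Pool.Agent.R220.LV
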