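import Mathlib

/-!
# Chains of linear second order equations: quantitative uniqueness on an interval
-/

set_option autoImplicit false

namespace Pool.Agent.R220.LV

open Real

/-- `U_i'' = U_{i+1} - q_i U_i` for `i < d`, `U_d = 0`, with `|q_i| ≤ M`. -/
structure Chain (d : ℕ) (M : ℝ) (U V q : ℕ → ℝ → ℝ) : Prop where
  dU : ∀ i < d, ∀ x, HasDerivAt (U i) (V i x) x
  dV : ∀ i < d, ∀ x, HasDerivAt (V i) (U (i + 1) x - q i x * U i x) x
  bd : ∀ i < d, ∀ x, |q i x| ≤ M
  top : ∀ x, U d x = 0

/-- The energy. -/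
noncomputable def En (d : ℕ) (U V : ℕ → ℝ → ℝ) (x : ℝ) : ℝ :=
  ∑ i ∈ Finset.range d, (U i x ^ 2 + V i x ^ 2)

variable {d : ℕ} {M : ℝ} {U V q : ℕ → ℝ → ℝ}

theorem En_nonneg (x : ℝ) : 0 ≤ En d U V x := Finset.sum_nonneg fun i _ => by positivity

theorem En_deriv (h : Chain d M U V q) (x : ℝ) :
    HasDerivAt (En d U V) (∑ i ∈ Finset.range d,
      (2 * U i x * V i x + 2 * V i x * (U (i + 1) x - q i x * U i x))) x := by
  unfold En
  refine HasDerivAt.fun_sum fun i hi => ?_
  have hi' := Finset.mem_range.1 hi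
  have h1 := (h.dU i hi' x).pow 2
  have h2 := (h.dV i hi' x).pow 2
  have h3 := h1.add h2
  refine h3.congr_deriv ?_
  push_cast
  ring

theorem En_deriv_le (hM : 0 ≤ M) (h : Chain d M U V q) (x : ℝ) :
    |∑ i ∈ Finset.range d,
      (2 * U i x * V i x + 2 * V i x * (U (i + 1) x - q i x * U i x))| ≤
      (2 + M) * En d U V x := by
  have h1 : ∀ i ∈ Finset.range d,
      |2 * U i x * V i x + 2 * V i x * (U (i + 1) x - q i x * U i x)| ≤
      (1 + M) * (U i x ^ 2 + V i x ^ 2) + (V i x ^ 2 + U (i + 1) x ^ 2) := by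
    intro i hi
    have hq := abs_le.1 (h.bd i (Finset.mem_range.1 hi) x)
    have h2 : |q i x * (2 * U i x * V i x)| ≤ M * (U i x ^ 2 + V i x ^ 2) := by
      rw [abs_mul]
      refine mul_le_mul (h.bd i (Finset.mem_range.1 hi) x) ?_ (abs_nonneg _) hM
      rw [abs_le]
      constructor <;> nlinarith [sq_nonneg (U i x + V i x), sq_nonneg (U i x - V i x)]
    have h3 : |2 * U i x * V i x| ≤ U i x ^ 2 + V i x ^ 2 := by
      rw [abs_le]
      constructor <;> nlinarith [sq_nonneg (U i x + V i x), sq_nonneg (U i x - V i x)]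
    have h4 : |2 * V i x * U (i + 1) x| ≤ V i x ^ 2 + U (i + 1) x ^ 2 := by
      rw [abs_le]
      constructor <;>
        nlinarith [sq_nonneg (V i x + U (i + 1) x), sq_nonneg (V i x - U (i + 1) x)]
    have e : 2 * U i x * V i x + 2 * V i x * (U (i + 1) x - q i x * U i x) =
        2 * U i x * V i x + 2 * V i x * U (i + 1) x - q i x * (2 * U i x * V i x) := by ring
    rw [e]
    have h5 := abs_sub (2 * U i x * V i x + 2 * V i x * U (i + 1) x) (q i x * (2 * U i x * V i x))
    have h6 := abs_add_le (2 * U i x * V i x) (2 * V i x * U (i + 1) x)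
    linarith
  refine (Finset.abs_sum_le_sum_abs _ _).trans ((Finset.sum_le_sum h1).trans ?_)
  rw [Finset.sum_add_distrib, ← Finset.mul_sum,
    Finset.sum_add_distrib (f := fun i => V i x ^ 2) (g := fun i => U (i + 1) x ^ 2)]
  have h7 : ∑ i ∈ Finset.range d, U (i + 1) x ^ 2 ≤ ∑ i ∈ Finset.range d, U i x ^ 2 := by
    have h8 := Finset.sum_range_succ (fun i => U i x ^ 2) d
    have h9 := Finset.sum_range_succ' (fun i => U i x ^ 2) d
    have h10 := h.top x
    simp only [h10] at h8
    have : 0 ≤ U 0 x ^ 2 := sq_nonneg _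
    nlinarith
  have h11 : En d U V x = ∑ i ∈ Finset.range d, U i x ^ 2 + ∑ i ∈ Finset.range d, V i x ^ 2 := by
    unfold En
    rw [Finset.sum_add_distrib]
  have h12 : ∑ i ∈ Finset.range d, (U i x ^ 2 + V i x ^ 2) = En d U V x := rfl
  rw [h12]
  nlinarith [h7, h11]

theorem En_growth (hM : 0 ≤ M) (h : Chain d M U V q) (x y : ℝ) :
    En d U V x ≤ Real.exp ((2 + M) * |x - y|) * En d U V y := by
  set c := 2 + M with hc
  have hE : ∀ z, 0 ≤ En d U V z := fun z => En_nonneg z
  rcases le_total y x with hxy | hxy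
  · have h1 : Antitone fun z => En d U V z * Real.exp (-(c * z)) := by
      apply antitone_of_hasDerivAt_nonpos
      · intro z
        exact (En_deriv h z).mul (((hasDerivAt_id z).const_mul c).neg.exp)
      · intro z
        have h2 := (abs_le.1 (En_deriv_le hM h z)).2
        simp only [id, mul_one]
        have h3 : 0 < Real.exp (-(c * z)) := Real.exp_pos _
        show _ + En d U V z * (Real.exp (-(c * z)) * -c) ≤ 0
        nlinarith [mul_le_mul_of_nonneg_right h2 h3.le]
    have h4 := h1 hxy
    simp only at h4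
    rw [abs_of_nonneg (by linarith)]
    have h5 : Real.exp (c * (x - y)) = Real.exp (-(c * y)) * Real.exp (c * x) := by
      rw [← Real.exp_add]; congr 1; ring
    rw [h5]
    have h6 : Real.exp (-(c * x)) * Real.exp (c * x) = 1 := by
      rw [← Real.exp_add]; simp
    have h7 := mul_le_mul_of_nonneg_right h4 (Real.exp_pos (c * x)).le
    calc En d U V x = En d U V x * Real.exp (-(c * x)) * Real.exp (c * x) := by
          rw [mul_assoc, h6, mul_one]
      _ ≤ _ := h7
      _ = _ := by ring
  · have h1 : Monotone fun z => En d U V z * Real.exp (c * z) := by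
      apply monotone_of_hasDerivAt_nonneg
      · intro z
        exact (En_deriv h z).mul (((hasDerivAt_id z).const_mul c).exp)
      · intro z
        have h2 := (abs_le.1 (En_deriv_le hM h z)).1
        simp only [id, mul_one]
        have h3 : 0 < Real.exp (c * z) := Real.exp_pos _
        show 0 ≤ _ + En d U V z * (Real.exp (c * z) * c)
        nlinarith [mul_le_mul_of_nonneg_right h2 h3.le]
    have h4 := h1 hxy
    simp only at h4
    rw [abs_of_nonpos (by linarith)]
    have h5 : Real.exp (c * -(x - y)) = Real.exp (c * y) * Real.exp (-(c * x)) := by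
      rw [← Real.exp_add]; congr 1; ring
    rw [h5]
    have h6 : Real.exp (c * x) * Real.exp (-(c * x)) = 1 := by
      rw [← Real.exp_add]; simp
    have h7 := mul_le_mul_of_nonneg_right h4 (Real.exp_pos (-(c * x))).le
    calc En d U V x = En d U V x * Real.exp (c * x) * Real.exp (-(c * x)) := by
          rw [mul_assoc, h6, mul_one]
      _ ≤ _ := h7
      _ = _ := by ring

/-- A derivative which is nearly constant is small if the function is small. -/
theorem der_small {w v : ℝ → ℝ} (hw : ∀ t, HasDerivAt w (v t) t) {x h z α β : ℝ} (hh : 0 < h)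
    (h1 : |w x| ≤ α) (h2 : |w (x + h)| ≤ α) (h3 : ∀ t ∈ Set.Icc x (x + h), |v t - z| ≤ β) :
    |z| ≤ 2 * α / h + β := by
  have hW : ∀ t ∈ Set.Icc x (x + h), HasDerivWithinAt (fun t => w t - t * z) (v t - z)
      (Set.Icc x (x + h)) t := fun t _ =>
    (((hw t).sub ((hasDerivAt_id t).mul_const z)).congr_deriv (by simp)).hasDerivWithinAt
  have h4 := (convex_Icc x (x + h)).norm_image_sub_le_of_norm_hasDerivWithin_le hW
    (fun t ht => by simpa [Real.norm_eq_abs] using h3 t ht)
    (Set.left_mem_Icc.2 (by linarith)) (Set.right_mem_Icc.2 (by linarith))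
  simp only [Real.norm_eq_abs] at h4
  have e1 : |x + h - x| = h := by rw [add_sub_cancel_left, abs_of_pos hh]
  have e2 : w (x + h) - (x + h) * z - (w x - x * z) = w (x + h) - w x - h * z := by ring
  rw [e1, e2] at h4
  have h5 : |h * z| ≤ 2 * α + β * h := by
    have h6 : h * z = w (x + h) - w x - (w (x + h) - w x - h * z) := by ring
    rw [h6]
    have h7 := abs_sub (w (x + h) - w x) (w (x + h) - w x - h * z)
    have h8 := abs_sub (w (x + h)) (w x)
    linarith
  rw [abs_mul, abs_of_pos hh] at h5
  have h9 : |z| = h * |z| / h := by field_simp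
  rw [h9, div_add' _ _ _ hh.ne']
  exact div_le_div_of_nonneg_right h5 hh.le

/-- Smallness passes along the chain. -/
theorem small (hM : 0 ≤ M) (b : ℝ) (i : ℕ) : ∀ b' : ℝ, b' < b → ∀ η : ℝ, 0 < η → ∃ K : ℝ, 0 ≤ K ∧
    ∀ (U V q : ℕ → ℝ → ℝ), Chain d M U V q → ∀ (ε S : ℝ), 0 ≤ ε → 0 ≤ S →
      (∀ x, |x| ≤ b → |U 0 x| ≤ ε) →
      (∀ j < d, ∀ x, |x| ≤ b → |U j x| ≤ S ∧ |V j x| ≤ S) → i < d →
      ∀ x, |x| ≤ b' → |U i x| ≤ η * S + K * ε ∧ |V i x| ≤ η * S + K * ε := by
  induction i with
  | zero =>
    intro b' hb' η hη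
    set h := min (b - b') (η / (1 + M)) with hh
    have hpos : 0 < h := lt_min (by linarith) (by positivity)
    refine ⟨1 + 2 / h, by positivity, ?_⟩
    intro U V q hC ε S hε hS h0 hSb hid x hx
    have hx1 : x ≤ b' := (abs_le.1 hx).2
    have hx2 : -b' ≤ x := (abs_le.1 hx).1
    have hhb : h ≤ b - b' := min_le_left _ _
    have hhη : (1 + M) * h ≤ η := by
      have : h ≤ η / (1 + M) := min_le_right _ _
      rwa [le_div_iff₀ (by positivity), mul_comm] at this
    have hbx : |x| ≤ b := hx.trans hb'.le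
    have hbh : ∀ t ∈ Set.Icc x (x + h), |t| ≤ b := by
      intro t ht
      rw [abs_le]
      constructor <;> [linarith [ht.1]; linarith [ht.2]]
    have hK : 0 ≤ 2 / h * ε := by positivity
    refine ⟨?_, ?_⟩
    · have := h0 x hbx
      nlinarith [mul_nonneg hη.le hS]
    · have h1 := der_small (hC.dU 0 hid) (x := x) (z := V 0 x) hpos (h0 x hbx)
        (h0 (x + h) (hbh _ (Set.right_mem_Icc.2 (by linarith)))) (β := (1 + M) * S * h) ?_
      · have h2 : 2 * ε / h = 2 / h * ε := by ring
        rw [h2] at h1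
        nlinarith [mul_le_mul_of_nonneg_right hhη hS]
      · intro t ht
        have h3 := (convex_Icc x (x + h)).norm_image_sub_le_of_norm_hasDerivWithin_le
          (f := V 0) (f' := fun x => U 1 x - q 0 x * U 0 x) (C := (1 + M) * S)
          (fun s hs => (hC.dV 0 hid s).hasDerivWithinAt) ?_
          (Set.left_mem_Icc.2 (by linarith)) ht
        · simp only [Real.norm_eq_abs] at h3
          refine h3.trans ?_
          gcongr
          rw [abs_le]
          constructor <;> [linarith [ht.1]; linarith [ht.2]]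
        · intro s hs
          rw [Real.norm_eq_abs]
          have hsb := hbh s hs
          have h4 : |U 1 s| ≤ S := by
            by_cases h5 : 1 < d
            · exact (hSb 1 h5 s hsb).1
            · have h6 : d = 1 := by omega
              have := hC.top s
              rw [h6] at this
              rw [this, abs_zero]
              exact hS
          have h7 := abs_sub (U 1 s) (q 0 s * U 0 s)
          have h8 : |q 0 s * U 0 s| ≤ M * S := by
            rw [abs_mul]
            exact mul_le_mul (hC.bd 0 hid s) (hSb 0 hid s hsb).1 (abs_nonneg _) hM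
          linarith
  | succ i ih =>
    intro b' hb' η hη
    -- two smaller intervals
    set b1 := (b' + b) / 2 with hb1
    set b2 := (b' + b1) / 2 with hb2
    have hb1b : b1 < b := by rw [hb1]; linarith
    have hb2b1 : b2 < b1 := by rw [hb2]; linarith
    have hb'b2 : b' < b2 := by rw [hb2, hb1]; linarith
    -- step for V (i+1) from U (i+1)
    set h' := min (b2 - b') (η / (2 * (1 + M))) with hh'
    have hpos' : 0 < h' := lt_min (by linarith) (by positivity)
    set η1 := min η (η * h' / 4) with hη1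
    have hη1pos : 0 < η1 := lt_min hη (by positivity)
    -- step for U (i+1) from U i, V i
    set h := min (b1 - b2) (η1 / 2) with hh
    have hpos : 0 < h := lt_min (by linarith) (by positivity)
    set η0 := η1 / (2 * (2 / h + M)) with hη0
    have hη0pos : 0 < η0 := by positivity
    obtain ⟨K0, hK0, h0⟩ := ih b1 hb1b η0 hη0pos
    set K1 := (2 / h + M) * K0 with hK1
    have hK1n : 0 ≤ K1 := by positivity
    refine ⟨K1 + 2 / h' * K1, by positivity, ?_⟩
    intro U V q hC ε S hε hS hU0 hSb hid x hx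
    have hi : i < d := by omega
    have H := h0 U V q hC ε S hε hS hU0 hSb hi
    have hUi : ∀ y, |y| ≤ b2 → |U (i + 1) y| ≤ η1 * S + K1 * ε := by
      intro y hy
      have hyr : ∀ t ∈ Set.Icc y (y + h), |t| ≤ b1 := by
        intro t ht
        have hhb : h ≤ b1 - b2 := min_le_left _ _
        have := abs_le.1 hy
        rw [abs_le]
        constructor <;> [linarith [ht.1]; linarith [ht.2]]
      have h1 := der_small (hC.dV i hi) (x := y) (z := U (i + 1) y) hpos
        (H y (hyr y (Set.left_mem_Icc.2 (by linarith)))).2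
        (H (y + h) (hyr _ (Set.right_mem_Icc.2 (by linarith)))).2
        (β := S * h + M * (η0 * S + K0 * ε)) ?_
      · have hh2 : h ≤ η1 / 2 := min_le_right _ _
        have e1 : η0 * (2 / h + M) = η1 / 2 := by
          rw [hη0]
          field_simp
        have e2 : 2 * (η0 * S + K0 * ε) / h + (S * h + M * (η0 * S + K0 * ε)) =
            (η0 * (2 / h + M)) * S + (2 / h + M) * K0 * ε + S * h := by ring
        rw [e2, e1] at h1
        have h3 := mul_le_mul_of_nonneg_left hh2 hS
        have h4 : (2 / h + M) * K0 * ε = K1 * ε := by rw [hK1]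
        rw [h4] at h1
        linarith
      · intro t ht
        have h3 := (convex_Icc y (y + h)).norm_image_sub_le_of_norm_hasDerivWithin_le
          (f := U (i + 1)) (f' := V (i + 1)) (C := S)
          (fun s hs => (hC.dU (i + 1) hid s).hasDerivWithinAt)
          (fun s hs => by
            rw [Real.norm_eq_abs]
            exact (hSb (i + 1) hid s ((hyr s hs).trans hb1b.le)).2)
          (Set.left_mem_Icc.2 (by linarith)) ht
        simp only [Real.norm_eq_abs] at h3
        have h4 : |t - y| ≤ h := by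
          rw [abs_le]
          constructor <;> [linarith [ht.1]; linarith [ht.2]]
        have h5 : |q i t * U i t| ≤ M * (η0 * S + K0 * ε) := by
          rw [abs_mul]
          exact mul_le_mul (hC.bd i hi t) (H t (hyr t ht)).1 (abs_nonneg _) hM
        have e : U (i + 1) t - q i t * U i t - U (i + 1) y =
            (U (i + 1) t - U (i + 1) y) - q i t * U i t := by ring
        rw [e]
        have h6 := abs_sub (U (i + 1) t - U (i + 1) y) (q i t * U i t)
        have h7 := mul_le_mul_of_nonneg_left h4 hS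
        linarith
    have hη1η : η1 ≤ η := min_le_left _ _
    have hη1h : η1 ≤ η * h' / 4 := min_le_right _ _
    have hx1 := abs_le.1 hx
    have hxb2 : |x| ≤ b2 := hx.trans hb'b2.le
    have hKK : 0 ≤ 2 / h' * K1 * ε := by positivity
    refine ⟨?_, ?_⟩
    · have h1 := hUi x hxb2
      have h2 := mul_le_mul_of_nonneg_right hη1η hS
      calc |U (i + 1) x| ≤ η1 * S + K1 * ε := h1
        _ ≤ η * S + (K1 + 2 / h' * K1) * ε := by
          have : (K1 + 2 / h' * K1) * ε = K1 * ε + 2 / h' * K1 * ε := by ring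
          linarith
    · have hxr : ∀ t ∈ Set.Icc x (x + h'), |t| ≤ b2 := by
        intro t ht
        have hhb : h' ≤ b2 - b' := min_le_left _ _
        rw [abs_le]
        constructor <;> [linarith [ht.1]; linarith [ht.2]]
      have h1 := der_small (hC.dU (i + 1) hid) (x := x) (z := V (i + 1) x) hpos'
        (hUi x hxb2) (hUi (x + h') (hxr _ (Set.right_mem_Icc.2 (by linarith))))
        (β := (1 + M) * S * h') ?_
      · have hhη : (1 + M) * h' ≤ η / 2 := by
          have : h' ≤ η / (2 * (1 + M)) := min_le_right _ _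
          rw [le_div_iff₀ (by positivity)] at this
          linarith
        have h2 : 2 * (η1 * S + K1 * ε) / h' ≤ η / 2 * S + 2 / h' * K1 * ε := by
          have e : 2 * (η1 * S + K1 * ε) / h' = 2 * η1 / h' * S + 2 / h' * K1 * ε := by ring
          rw [e]
          have : 2 * η1 / h' ≤ η / 2 := by
            rw [div_le_iff₀ hpos']
            linarith
          have := mul_le_mul_of_nonneg_right this hS
          linarith
        have h3 := mul_le_mul_of_nonneg_right hhη hS
        have h4 : 0 ≤ K1 * ε := by positivity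
        have e : (K1 + 2 / h' * K1) * ε = K1 * ε + 2 / h' * K1 * ε := by ring
        rw [e]
        have e3 : (1 + M) * S * h' = (1 + M) * h' * S := by ring
        linarith
      · intro t ht
        have h3 := (convex_Icc x (x + h')).norm_image_sub_le_of_norm_hasDerivWithin_le
          (f := V (i + 1)) (f' := fun x => U (i + 1 + 1) x - q (i + 1) x * U (i + 1) x)
          (C := (1 + M) * S)
          (fun s hs => (hC.dV (i + 1) hid s).hasDerivWithinAt) ?_
          (Set.left_mem_Icc.2 (by linarith)) ht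
        · simp only [Real.norm_eq_abs] at h3
          refine h3.trans ?_
          gcongr
          rw [abs_le]
          constructor <;> [linarith [ht.1]; linarith [ht.2]]
        · intro s hs
          rw [Real.norm_eq_abs]
          have hsb : |s| ≤ b := (hxr s hs).trans (by linarith)
          have h4 : |U (i + 1 + 1) s| ≤ S := by
            by_cases h5 : i + 1 + 1 < d
            · exact (hSb _ h5 s hsb).1
            · have h6 : d = i + 1 + 1 := by omega
              have := hC.top s
              rw [h6] at this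
              rw [this, abs_zero]
              exact hS
          have h7 := abs_sub (U (i + 1 + 1) s) (q (i + 1) s * U (i + 1) s)
          have h8 : |q (i + 1) s * U (i + 1) s| ≤ M * S := by
            rw [abs_mul]
            exact mul_le_mul (hC.bd _ hid s) (hSb _ hid s hsb).1 (abs_nonneg _) hM
          linarith

/-- Quantitative uniqueness for chains. -/
theorem observe (hM : 0 ≤ M) (d : ℕ) {b R : ℝ} (hb : 0 < b) : ∃ C : ℝ, 0 < C ∧
    ∀ (U V q : ℕ → ℝ → ℝ), Chain d M U V q → ∀ ε : ℝ, 0 ≤ ε → (∀ x, |x| ≤ b → |U 0 x| ≤ ε) →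
      ∀ x, |x| ≤ R → |U 0 x| ≤ C * ε := by
  rcases Nat.eq_zero_or_pos d with hd | hd
  · refine ⟨1, one_pos, fun U V q hC ε hε _ x _ => ?_⟩
    have := hC.top x
    rw [hd] at this
    rw [this]
    simpa using hε
  set G := Real.exp ((2 + M) * b) with hG
  have hG0 : 0 < G := Real.exp_pos _
  have hG1 : 0 < Real.sqrt G := Real.sqrt_pos.2 hG0
  have hd0 : (0 : ℝ) < d := by exact_mod_cast hd
  set D := Real.sqrt (2 * d) with hD
  have hD0 : 0 < D := Real.sqrt_pos.2 (by positivity)
  set η := 1 / (2 * D * Real.sqrt G) with hη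
  have hη0 : 0 < η := by positivity
  have hsm : ∀ i, ∃ K : ℝ, 0 ≤ K ∧
      ∀ (U V q : ℕ → ℝ → ℝ), Chain d M U V q → ∀ (ε S : ℝ), 0 ≤ ε → 0 ≤ S →
        (∀ x, |x| ≤ b → |U 0 x| ≤ ε) →
        (∀ j < d, ∀ x, |x| ≤ b → |U j x| ≤ S ∧ |V j x| ≤ S) → i < d →
        ∀ x, |x| ≤ 0 → |U i x| ≤ η * S + K * ε ∧ |V i x| ≤ η * S + K * ε := fun i =>
    small hM b i 0 hb η hη0
  choose K hK0 hK using hsm
  set K' := ∑ i ∈ Finset.range d, K i with hK'
  have hK'0 : 0 ≤ K' := Finset.sum_nonneg fun i _ => hK0 i
  set H := Real.exp ((2 + M) * |R|) with hH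
  have hH0 : 0 < H := Real.exp_pos _
  refine ⟨Real.sqrt H * (2 * D * K' + 1), by positivity, ?_⟩
  intro U V q hC ε hε h0 x hx
  have hE0 := En_nonneg (d := d) (U := U) (V := V) 0
  have hle : ∀ (j : ℕ), j < d → ∀ x, U j x ^ 2 ≤ En d U V x ∧ V j x ^ 2 ≤ En d U V x := by
    intro j hj x
    have h1 : U j x ^ 2 + V j x ^ 2 ≤ En d U V x :=
      Finset.single_le_sum (f := fun i => U i x ^ 2 + V i x ^ 2)
        (fun i _ => by positivity) (Finset.mem_range.2 hj)
    constructor <;> nlinarith [sq_nonneg (U j x), sq_nonneg (V j x)]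
  set S := Real.sqrt (G * En d U V 0) with hS
  have hS0 : 0 ≤ S := Real.sqrt_nonneg _
  have hSb : ∀ j < d, ∀ x, |x| ≤ b → |U j x| ≤ S ∧ |V j x| ≤ S := by
    intro j hj x hx
    have h1 := En_growth hM hC x 0
    rw [sub_zero] at h1
    have h2 : Real.exp ((2 + M) * |x|) ≤ G := Real.exp_le_exp.2 (by gcongr)
    have h3 : En d U V x ≤ G * En d U V 0 := h1.trans (mul_le_mul_of_nonneg_right h2 hE0)
    obtain ⟨h4, h5⟩ := hle j hj x
    exact ⟨Real.abs_le_sqrt (h4.trans h3), Real.abs_le_sqrt (h5.trans h3)⟩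
  set m := η * S + K' * ε with hm
  have hm0 : 0 ≤ m := by positivity
  have hUV : ∀ i < d, |U i 0| ≤ m ∧ |V i 0| ≤ m := by
    intro i hi
    obtain ⟨h1, h2⟩ := hK i U V q hC ε S hε hS0 h0 hSb hi 0 (by simp)
    have h3 : K i ≤ K' := Finset.single_le_sum (fun i _ => hK0 i) (Finset.mem_range.2 hi)
    have h4 := mul_le_mul_of_nonneg_right h3 hε
    exact ⟨by linarith, by linarith⟩
  have hE : En d U V 0 ≤ 2 * d * m ^ 2 := by
    unfold En
    calc ∑ i ∈ Finset.range d, (U i 0 ^ 2 + V i 0 ^ 2) ≤ ∑ i ∈ Finset.range d, (m ^ 2 + m ^ 2) := by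
          refine Finset.sum_le_sum fun i hi => ?_
          obtain ⟨h1, h2⟩ := hUV i (Finset.mem_range.1 hi)
          exact add_le_add (sq_le_sq' (by linarith [(abs_le.1 h1).1]) (abs_le.1 h1).2)
            (sq_le_sq' (by linarith [(abs_le.1 h2).1]) (abs_le.1 h2).2)
      _ = 2 * d * m ^ 2 := by
          rw [Finset.sum_const, Finset.card_range, nsmul_eq_mul]
          ring
  set s := Real.sqrt (En d U V 0) with hs
  have hs0 : 0 ≤ s := Real.sqrt_nonneg _
  have hsle : s ≤ D * m := by
    rw [hs, hD]
    calc Real.sqrt (En d U V 0) ≤ Real.sqrt (2 * d * m ^ 2) := Real.sqrt_le_sqrt hE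
      _ = Real.sqrt (2 * d) * m := by rw [Real.sqrt_mul (by positivity), Real.sqrt_sq hm0]
  have hSs : S = Real.sqrt G * s := by rw [hS, Real.sqrt_mul hG0.le]
  have hs2 : s ≤ 2 * D * K' * ε := by
    have h1 : D * (η * S) = s / 2 := by
      rw [hSs, hη]
      field_simp
    have h2 : D * m = s / 2 + D * (K' * ε) := by rw [hm, mul_add, h1]
    rw [h2] at hsle
    linarith
  have h1 := En_growth hM hC x 0
  rw [sub_zero] at h1
  have h2 : Real.exp ((2 + M) * |x|) ≤ H :=
    Real.exp_le_exp.2 (by
      have := hx.trans (le_abs_self R)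
      gcongr)
  have h3 : En d U V x ≤ H * En d U V 0 := h1.trans (mul_le_mul_of_nonneg_right h2 hE0)
  have h4 := (hle 0 hd x).1
  have h5 := Real.abs_le_sqrt (h4.trans h3)
  rw [Real.sqrt_mul hH0.le] at h5
  have h6 := mul_le_mul_of_nonneg_left hs2 (Real.sqrt_nonneg H)
  calc |U 0 x| ≤ Real.sqrt H * s := h5
    _ ≤ Real.sqrt H * (2 * D * K' * ε) := h6
    _ ≤ Real.sqrt H * (2 * D * K' + 1) * ε := by
        nlinarith [mul_nonneg (Real.sqrt_nonneg H) hε]

end Pool.Agent.R220.LV
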