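import Pool.Agent.R220.LV.Wsp
import Pool.Agent.R220.LV.Chain

/-!
# Diagonalization and estimates along lines
-/

set_option autoImplicit false
set_option linter.unusedVariables false
set_option maxHeartbeats 400000

namespace Pool.Agent.R220.LV

open MeasureTheory Real Pool.Agent.Y291.DB Pool.Agent.Y291.PA Function

variable {f g : ℝ → ℝ} {L lam : ℝ}

theorem ip_symm (hf : Continuous f) (hg : Continuous g) {u v : ℝ × ℝ → ℝ}
    (hu : u ∈ W hf hg L lam) (hv : v ∈ W hf hg L lam) :
    ip L (Aop f lam u) v = ip L u (Aop f lam v) := by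
  obtain ⟨u0, u1, u2, u3, u4, hu⟩ := hu
  obtain ⟨v0, v1, v2, v3, v4, hv⟩ := hv
  unfold ip
  congr 1
  funext y
  have h1 := I0x hf hu hv y y
  simp only [Aop_eq hu, Aop_eq hv]
  exact h1

/-- The operator on the space. -/
noncomputable def TW (hf : Continuous f) (hg : Continuous g) (hL : 0 < L) (lam : ℝ)
    [FiniteDimensional ℝ (W hf hg L lam)] : W hf hg L lam →ₗ[ℝ] W hf hg L lam where
  toFun w := ⟨Aop f lam w.1, A_mem hf hg hL w.2⟩
  map_add' x y := Subtype.ext (Aop_add x.2 y.2)
  map_smul' r x := Subtype.ext (Aop_smul x.2 r)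

theorem decomp (hf : Continuous f) (hg : Continuous g) (hL : 0 < L)
    [FiniteDimensional ℝ (W hf hg L lam)] :
    ∃ (μ : Fin (Module.finrank ℝ (W hf hg L lam)) → ℝ)
      (e : Fin (Module.finrank ℝ (W hf hg L lam)) → ℝ × ℝ → ℝ),
      (∀ i, e i ∈ W hf hg L lam) ∧ (∀ i, e i ≠ 0) ∧ (∀ i, Aop f lam (e i) = μ i • e i) ∧
      ∀ u ∈ W hf hg L lam, ∃ c : Fin (Module.finrank ℝ (W hf hg L lam)) → ℝ,
        u = ∑ i, c i • e i := by
  obtain ⟨μ, e, h1, h2, h3⟩ := abs_diag (core hf hg hL lam) (TW hf hg hL lam)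
    (fun u v => by
      rw [core_inner, core_inner]
      exact ip_symm hf hg u.2 v.2)
  refine ⟨μ, fun i => (e i).1, fun i => (e i).2, fun i h => h1 i (Subtype.ext h), fun i => ?_,
    fun u hu => ?_⟩
  · exact congrArg Subtype.val (h2 i)
  · obtain ⟨c, hc⟩ := h3 ⟨u, hu⟩
    refine ⟨c, ?_⟩
    have h4 := congrArg Subtype.val hc
    simp only [Submodule.coe_sum, Submodule.coe_smul] at h4
    exact h4

/-- The Dirichlet integral of a periodic function. -/
theorem ibp_self {u u' u'' : ℝ → ℝ} (hu : ∀ t, HasDerivAt u (u' t) t)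
    (hu' : ∀ t, HasDerivAt u' (u'' t) t) (cu : Continuous u'') {P : ℝ} (hP : 0 < P)
    (pu : u P = u 0) (pu' : u' P = u' 0) : ∫ t in (0 : ℝ)..P, u'' t * u t ≤ 0 := by
  have c1 : Continuous u := continuous_iff_continuousAt.2 fun t => (hu t).continuousAt
  have c2 : Continuous u' := continuous_iff_continuousAt.2 fun t => (hu' t).continuousAt
  have h1 : ∀ t ∈ Set.uIcc (0 : ℝ) P, HasDerivAt (fun t => u' t * u t)
      (u'' t * u t + u' t * u' t) t := fun t _ => (hu' t).mul (hu t)
  have h3 := intervalIntegral.integral_eq_sub_of_hasDerivAt h1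
    (((cu.mul c1).add (c2.mul c2)).intervalIntegrable _ _)
  have h4 := int_add (u := fun t => u'' t * u t) (v := fun t => u' t * u' t) (cu.mul c1)
    (c2.mul c2) 0 P
  rw [pu, pu', sub_self, h4] at h3
  have h5 : 0 ≤ ∫ t in (0 : ℝ)..P, u' t * u' t :=
    intervalIntegral.integral_nonneg hP.le fun t _ => mul_self_nonneg _
  linarith

theorem int_weight {q v : ℝ → ℝ} (hq : Continuous q) (hv : Continuous v) {P m : ℝ} (hP : 0 < P)
    (hm : 0 < m) (hqm : ∀ t, m ≤ q t) (h : ∫ t in (0 : ℝ)..P, q t * v t * v t ≤ 0) :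
    ∫ t in (0 : ℝ)..P, v t * v t = 0 := by
  have h1 : ∫ t in (0 : ℝ)..P, m * (v t * v t) ≤ ∫ t in (0 : ℝ)..P, q t * v t * v t := by
    refine intervalIntegral.integral_mono_on hP.le
      ((continuous_const.mul (hv.mul hv)).intervalIntegrable _ _)
      (((hq.mul hv).mul hv).intervalIntegrable _ _) fun t _ => ?_
    rw [mul_assoc]
    exact mul_le_mul_of_nonneg_right (hqm t) (mul_self_nonneg _)
  rw [intervalIntegral.integral_const_mul] at h1
  have h2 : 0 ≤ ∫ t in (0 : ℝ)..P, v t * v t :=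
    intervalIntegral.integral_nonneg hP.le fun t _ => mul_self_nonneg _
  nlinarith

/-- The second derivatives of a joint eigenfunction. -/
theorem joint_deriv {e : ℝ × ℝ → ℝ} {μ : ℝ} {φx φxx φy φyy : ℝ → ℝ → ℝ}
    (h : SP f g L lam (fun x y => e (x, y)) φx φxx φy φyy) (hA : Aop f lam e = μ • e) (x y : ℝ) :
    φxx x y = (μ - lam * f x) * e (x, y) ∧ φyy x y = (-μ - lam * g y) * e (x, y) := by
  have h1 := Aop_eq h x y
  rw [hA] at h1
  have h2 := AA_eq h x y
  have h3 : (μ • e) (x, y) = μ * e (x, y) := rfl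
  rw [h3] at h1
  rw [← h1] at h2
  unfold AA at h1
  constructor <;> linarith

theorem mu_le {hf : Continuous f} {hg : Continuous g} (hL : 0 < L) {e : ℝ × ℝ → ℝ} {μ : ℝ}
    (he : e ∈ W hf hg L lam) (hne : e ≠ 0) (hA : Aop f lam e = μ • e) (hlam : 0 < lam) {M : ℝ}
    (hM : ∀ x, f x ≤ M) : μ ≤ lam * M := by
  have hcu := W_cont he
  obtain ⟨h1, φx, φxx, φy, φyy, h2⟩ := he
  by_contra hcon
  rw [not_le] at hcon
  apply hne
  funext p
  refine zero_of_slices (L := L) (u := fun x y => e (x, y)) hcu hL h2.px h2.py ?_ p.1 p.2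
  intro y _
  have cv : Continuous fun t => e (t, y) := hcu.comp (Continuous.prodMk_left y)
  have cq : Continuous fun t => μ - lam * f t := by fun_prop
  have cxx : Continuous fun t => φxx t y := h2.s.cxx.comp (Continuous.prodMk_left y)
  have h3 := ibp_self (u := fun t => e (t, y)) (u' := fun t => φx t y) (u'' := fun t => φxx t y)
    (fun t => h2.s.dx t y) (fun t => h2.s.dxx t y) cxx hL
    (by have := h2.px 0 y; rwa [zero_add] at this) (by have := h2.px1 0 y; rwa [zero_add] at this)
  have e1 : ∀ t, φxx t y = (μ - lam * f t) * e (t, y) := fun t => (joint_deriv h2 hA t y).1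
  simp only [e1] at h3
  refine int_weight cq cv hL (m := μ - lam * M) (by linarith) (fun t => ?_) h3
  have := mul_le_mul_of_nonneg_left (hM t) hlam.le
  linarith

theorem mu_ge {hf : Continuous f} {hg : Continuous g} (hL : 0 < L) {e : ℝ × ℝ → ℝ} {μ : ℝ}
    (he : e ∈ W hf hg L lam) (hne : e ≠ 0) (hA : Aop f lam e = μ • e) (hlam : 0 < lam) {M : ℝ}
    (hM : ∀ x, g x ≤ M) : -μ ≤ lam * M := by
  have hcu := W_cont he
  obtain ⟨h1, φx, φxx, φy, φyy, h2⟩ := he
  by_contra hcon
  rw [not_le] at hcon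
  apply hne
  have key : ∀ x y, y ∈ Set.Icc 0 (2 * π) → e (x, y) = 0 := by
    intro x y hy
    have cv : Continuous fun t => e (x, t) := hcu.comp (Continuous.prodMk_right x)
    have cq : Continuous fun t => -μ - lam * g t := by fun_prop
    have cyy : Continuous fun t => φyy x t := h2.s.cyy.comp (Continuous.prodMk_right x)
    have h3 := ibp_self (u := fun t => e (x, t)) (u' := fun t => φy x t)
      (u'' := fun t => φyy x t)
      (fun t => h2.s.dy x t) (fun t => h2.s.dyy x t) cyy (P := 2 * π) (by positivity)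
      (by have := h2.py x 0; rwa [zero_add] at this)
      (by have := h2.py2 x 0; rwa [zero_add] at this)
    have e1 : ∀ t, φyy x t = (-μ - lam * g t) * e (x, t) := fun t => (joint_deriv h2 hA x t).2
    simp only [e1] at h3
    have h4 := int_weight cq cv (P := 2 * π) (by positivity) (m := -μ - lam * M) (by linarith)
      (fun t => by
        have := mul_le_mul_of_nonneg_left (hM t) hlam.le
        linarith) h3
    have h5 := zero_int (h := fun t => e (x, t) * e (x, t)) (cv.mul cv)
      (fun t => mul_self_nonneg _) (by positivity) h4 y hy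
    exact mul_self_eq_zero.1 h5
  funext p
  have h6 : Function.Periodic (fun y => e (p.1, y)) (2 * π) := fun y => h2.py p.1 y
  obtain ⟨y', hy', e1⟩ := h6.exists_mem_Ico₀ (by positivity) p.2
  have e2 : e (p.1, p.2) = e (p.1, y') := e1
  show e (p.1, p.2) = 0
  rw [e2]
  exact key p.1 y' ⟨hy'.1, hy'.2.le⟩

/-- The estimate along a line for a sum of solutions of equations `w'' = (ν - lam h) w`. -/
theorem line_est (n : ℕ) {M b R : ℝ} (hM : 0 ≤ M) (hb : 0 < b) : ∃ C : ℝ, 0 < C ∧
    ∀ (h : ℝ → ℝ) (lam : ℝ) (ν : Fin n → ℝ) (w w' : Fin n → ℝ → ℝ) (x0 ε : ℝ), 0 < lam →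
      (∀ i t, |h t - ν i / lam| ≤ M) → (∀ i t, HasDerivAt (w i) (w' i t) t) →
      (∀ i t, HasDerivAt (w' i) ((ν i - lam * h t) * w i t) t) → 0 ≤ ε →
      (∀ t, |t| ≤ b → |∑ i, w i (x0 + t * (1 / Real.sqrt lam))| ≤ ε) →
      ∀ t, |t| ≤ R → |∑ i, w i (x0 + t * (1 / Real.sqrt lam))| ≤ C * ε := by
  obtain ⟨C, hC, H⟩ := observe hM n (R := R) hb
  refine ⟨C, hC, ?_⟩
  intro h lam ν w w' x0 ε hlam hq hw hw' hε h0
  set δ := 1 / Real.sqrt lam with hδ
  have hδ2 : δ * δ * lam = 1 := by
    rw [hδ, div_mul_div_comm, one_mul, Real.mul_self_sqrt hlam.le]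
    field_simp
  set ν' : ℕ → ℝ := fun j => if hj : j < n then ν ⟨j, hj⟩ else 0 with hν'
  set c : ℕ → Fin n → ℝ := fun i k => ∏ j ∈ Finset.range i, ((ν k - ν' j) / lam) with hc
  set U : ℕ → ℝ → ℝ := fun i t => ∑ k, c i k * w k (x0 + t * δ) with hU
  set V : ℕ → ℝ → ℝ := fun i t => ∑ k, c i k * (w' k (x0 + t * δ) * δ) with hV
  set q : ℕ → ℝ → ℝ := fun i t => h (x0 + t * δ) - ν' i / lam with hqd
  have hlin : ∀ t, HasDerivAt (fun t => x0 + t * δ) δ t := by
    intro t
    have := ((hasDerivAt_id t).mul_const δ).const_add x0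
    simpa using this
  have hchain : Chain n M U V q := by
    refine ⟨?_, ?_, ?_, ?_⟩
    · intro i _ t
      refine HasDerivAt.fun_sum fun k _ => ?_
      have h1 : HasDerivAt (fun t => w k (x0 + t * δ)) (w' k (x0 + t * δ) * δ) t :=
        (hw k (x0 + t * δ)).comp t (hlin t)
      exact h1.const_mul _
    · intro i _ t
      have h1 : HasDerivAt (V i) (∑ k, c i k *
          ((ν k - lam * h (x0 + t * δ)) * w k (x0 + t * δ) * δ * δ)) t := by
        refine HasDerivAt.fun_sum fun k _ => ?_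
        have h1 : HasDerivAt (fun t => w' k (x0 + t * δ))
            ((ν k - lam * h (x0 + t * δ)) * w k (x0 + t * δ) * δ) t :=
          (hw' k (x0 + t * δ)).comp t (hlin t)
        exact (h1.mul_const δ).const_mul _
      refine h1.congr_deriv ?_
      rw [hU, hqd]
      simp only
      rw [Finset.mul_sum, ← Finset.sum_sub_distrib]
      refine Finset.sum_congr rfl fun k _ => ?_
      have h2 : c (i + 1) k = c i k * ((ν k - ν' i) / lam) := by
        rw [hc]
        exact Finset.prod_range_succ _ _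
      rw [h2]
      have h3 : δ * δ = 1 / lam := by
        field_simp
        linarith
      calc c i k * ((ν k - lam * h (x0 + t * δ)) * w k (x0 + t * δ) * δ * δ)
          = c i k * ((ν k - lam * h (x0 + t * δ)) * w k (x0 + t * δ) * (δ * δ)) := by ring
        _ = c i k * ((ν k - lam * h (x0 + t * δ)) * w k (x0 + t * δ) * (1 / lam)) := by rw [h3]
        _ = _ := by
          field_simp
          ring
    · intro i hi t
      have h1 := hq ⟨i, hi⟩ (x0 + t * δ)
      rw [hqd, hν']
      simp only [hi, dif_pos]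
      exact h1
    · intro t
      rw [hU]
      simp only
      refine Finset.sum_eq_zero fun k _ => ?_
      have h1 : c n k = 0 := by
        rw [hc]
        simp only
        refine Finset.prod_eq_zero (Finset.mem_range.2 k.2) ?_
        rw [hν']
        simp only [k.2, dif_pos, Fin.eta, sub_self, zero_div]
      rw [h1, zero_mul]
  have hU0 : ∀ t, U 0 t = ∑ i, w i (x0 + t * δ) := by
    intro t
    rw [hU, hc]
    simp
  have h1 := H U V q hchain ε hε (fun t ht => by rw [hU0]; exact h0 t ht)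
  intro t ht
  have h2 := h1 t ht
  rwa [hU0] at h2

end Pool.Agent.R220.LV
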