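import Pool.Agent.R220.LV.Main

/-!
# Doubling indices on Liouville tori: conclusion
-/

set_option autoImplicit false
set_option linter.unusedVariables false
set_option maxHeartbeats 400000

namespace Pool.Agent.R220.LV

open MeasureTheory Real Pool.Agent.Y291.DB Pool.Agent.Y291.PA Function
open Pool.Agent.R220.TI (MultiplicityLE)

variable {f g : ℝ → ℝ} {L lam : ℝ}

/-- A separated eigenfunction is a joint eigenfunction. -/
theorem joint_of_prod (hf : Continuous f) (hg : Continuous g) {X Y : ℝ → ℝ}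
    (h : Eigen (fun p => f p.1 + g p.2) L 0 lam (fun p => X p.1 * Y p.2)) :
    ∃ μ, Joint hf hg L lam (fun p => X p.1 * Y p.2) μ := by
  have hmem := mem_of_eigen hf hg h
  obtain ⟨p0, hp0⟩ := h.ne
  have hX0 : X p0.1 ≠ 0 := left_ne_zero_of_mul hp0
  have hY0 : Y p0.2 ≠ 0 := right_ne_zero_of_mul hp0
  have hne : (fun p : ℝ × ℝ => X p.1 * Y p.2) ≠ 0 := fun h1 => hp0 (congrFun h1 p0)
  obtain ⟨φx, φxx, φy, φyy, hSP⟩ := hmem.2
  have e0 : ∀ x y, AA f lam (fun x y => X x * Y y) φxx x y =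
      -(φyy x y + lam * g y * (X x * Y y)) := fun x y => AA_eq hSP x y
  -- second derivatives of the product
  have hxx : ∀ x y, φxx x y = (φxx x p0.2 / Y p0.2) * Y y := by
    intro x y
    have h1 : ∀ x y, φx x y = (φx x p0.2 / Y p0.2) * Y y := by
      intro x y
      have h2 : HasDerivAt (fun t => X t * Y p0.2) (φx x p0.2) x := hSP.s.dx x p0.2
      have h3 : HasDerivAt (fun t => X t * Y p0.2 / Y p0.2 * Y y)
          (φx x p0.2 / Y p0.2 * Y y) x := (h2.div_const (Y p0.2)).mul_const (Y y)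
      have h4 : (fun t => X t * Y p0.2 / Y p0.2 * Y y) = fun t => X t * Y y := by
        funext t
        rw [mul_div_assoc, div_self hY0, mul_one]
      rw [h4] at h3
      exact (hSP.s.dx x y).unique h3
    have h2 : HasDerivAt (fun t => φx t p0.2 / Y p0.2 * Y y)
        (φxx x p0.2 / Y p0.2 * Y y) x := ((hSP.s.dxx x p0.2).div_const (Y p0.2)).mul_const (Y y)
    have h3 : (fun t => φx t p0.2 / Y p0.2 * Y y) = fun t => φx t y := by
      funext t
      exact (h1 t y).symm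
    rw [h3] at h2
    exact (hSP.s.dxx x y).unique h2
  have hyy : ∀ x y, φyy x y = (φyy p0.1 y / X p0.1) * X x := by
    intro x y
    have h1 : ∀ x y, φy x y = (φy p0.1 y / X p0.1) * X x := by
      intro x y
      have h2 : HasDerivAt (fun t => X p0.1 * Y t) (φy p0.1 y) y := hSP.s.dy p0.1 y
      have h3 : HasDerivAt (fun t => X p0.1 * Y t / X p0.1 * X x)
          (φy p0.1 y / X p0.1 * X x) y := (h2.div_const (X p0.1)).mul_const (X x)
      have h4 : (fun t => X p0.1 * Y t / X p0.1 * X x) = fun t => X x * Y t := by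
        funext t
        field_simp
      rw [h4] at h3
      exact (hSP.s.dy x y).unique h3
    have h2 : HasDerivAt (fun t => φy p0.1 t / X p0.1 * X x)
        (φyy p0.1 y / X p0.1 * X x) y := ((hSP.s.dyy p0.1 y).div_const (X p0.1)).mul_const (X x)
    have h3 : (fun t => φy p0.1 t / X p0.1 * X x) = fun t => φy x t := by
      funext t
      exact (h1 x t).symm
    rw [h3] at h2
    exact (hSP.s.dyy x y).unique h2
  set μ : ℝ := (φxx p0.1 p0.2 / Y p0.2) / X p0.1 + lam * f p0.1 with hμ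
  refine ⟨μ, hmem, hne, ?_⟩
  -- at `x = p0.1` one gets the equation of `Y`, then the one of `X`
  have hYeq : ∀ y, φyy p0.1 y = -(μ + lam * g y) * (X p0.1 * Y y) := by
    intro y
    have h1 := e0 p0.1 y
    unfold AA at h1
    rw [hxx p0.1 y] at h1
    have h2 : φxx p0.1 p0.2 / Y p0.2 * Y y = (μ - lam * f p0.1) * (X p0.1 * Y y) := by
      rw [hμ]
      field_simp
      ring
    rw [h2] at h1
    linarith
  funext p
  have h1 := Aop_eq (φ := fun p : ℝ × ℝ => X p.1 * Y p.2) hSP p.1 p.2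
  have h2 : Aop f lam (fun p : ℝ × ℝ => X p.1 * Y p.2) p =
      AA f lam (fun x y => X x * Y y) φxx p.1 p.2 := h1
  rw [h2, e0, hyy p.1 p.2, hYeq p.2]
  show -(-(μ + lam * g p.2) * (X p0.1 * Y p.2) / X p0.1 * X p.1 +
    lam * g p.2 * (X p.1 * Y p.2)) = μ * (X p.1 * Y p.2)
  field_simp
  ring

/-- The bound for sums of `n` joint eigenfunctions. -/
theorem bound_n (n : ℕ) (hf : Continuous f) (hg : Continuous g) (hL : 0 < L)
    (hfL : ∀ x, f (x + L) = f x) (hgp : ∀ y, g (y + 2 * π) = g y)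
    (hpos : ∀ x y, 0 < f x + g y) {C : ℝ} (hC : 0 < C) : ∃ a : ℝ, 0 ≤ a ∧
      ∀ (lam : ℝ) (φ : ℝ × ℝ → ℝ) (e : Fin n → ℝ × ℝ → ℝ) (μ c : Fin n → ℝ), 0 < lam →
        φ ∈ W hf hg L lam → (∀ i, Joint hf hg L lam (e i) (μ i)) →
        (∀ p, φ p = ∑ i, c i * e i p) →
        ∀ p, doubling (fun p => f p.1 + g p.2) L 0 φ p (C / Real.sqrt lam) ≤ a := by
  have hρc : Continuous fun p : ℝ × ℝ => f p.1 + g p.2 :=
    (hf.comp continuous_fst).add (hg.comp continuous_snd)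
  have hρx : ∀ p : ℝ × ℝ, (fun p : ℝ × ℝ => f p.1 + g p.2) (p.1 + L, p.2 + 0) =
      (fun p : ℝ × ℝ => f p.1 + g p.2) p := fun p => by simp [hfL]
  have hρy : ∀ p : ℝ × ℝ, (fun p : ℝ × ℝ => f p.1 + g p.2) (p.1, p.2 + 2 * π) =
      (fun p : ℝ × ℝ => f p.1 + g p.2) p := fun p => by simp [hgp]
  obtain ⟨ρm, hρm0, hρm⟩ := bounded_below_of_per hL hρc (fun p => hpos p.1 p.2) hρx hρy
  obtain ⟨ρM, hρM0', hρM'⟩ := bounded_of_per hL hρc hρx hρy
  have hρM : ∀ p : ℝ × ℝ, f p.1 + g p.2 ≤ ρM := fun p => (le_abs_self _).trans (hρM' p)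
  obtain ⟨F, hF0, hF⟩ := bounded_of_per (L := L) (α := 0) hL (f := fun p : ℝ × ℝ => f p.1)
    (hf.comp continuous_fst) (fun p => by simp [hfL]) (fun p => rfl)
  obtain ⟨G, hG0, hG⟩ := bounded_of_per (L := L) (α := 0) hL (f := fun p : ℝ × ℝ => g p.2)
    (hg.comp continuous_snd) (fun p => by simp) (fun p => by simp [hgp])
  have hsM : 0 ≤ Real.sqrt ρM := Real.sqrt_nonneg _
  obtain ⟨b, hb, hbC⟩ : ∃ b : ℝ, 0 < b ∧ 2 * b * Real.sqrt ρM < C := by
    refine ⟨C / (4 * (Real.sqrt ρM + 1)), by positivity, ?_⟩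
    have h1 : 2 * (C / (4 * (Real.sqrt ρM + 1))) * Real.sqrt ρM =
        C * (Real.sqrt ρM / (2 * (Real.sqrt ρM + 1))) := by
      field_simp
      ring
    rw [h1]
    have h2 : Real.sqrt ρM / (2 * (Real.sqrt ρM + 1)) < 1 := by
      rw [div_lt_one (by positivity)]
      linarith
    nlinarith
  set R := max b (2 * C / Real.sqrt ρm) with hR
  obtain ⟨Λ, hΛ, H⟩ := two_dim n (F := F) (G := G) hb (le_max_left b (2 * C / Real.sqrt ρm))
  refine ⟨Real.logb 2 Λ, Real.logb_nonneg one_lt_two hΛ, ?_⟩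
  intro lam φ e μ c hlam hφ hJ hsum p
  obtain ⟨φx, φxx, φy, φyy, hSP⟩ := hφ.2
  refine dbl (R := R) hL hρc hρm0 hρm hρM hlam (W_cont hφ) (fun p => ?_)
    (fun p => hSP.py p.1 p.2) hC hb hbC (le_max_right b _) hΛ p ?_
  · have := hSP.px p.1 p.2
    simpa using this
  · intro ε hε h0
    simp only [hsum] at h0 ⊢
    exact H f g hf hg L lam e μ c hL hlam (fun x => hF (x, 0)) (fun y => hG (0, y)) hJ p ε hε h0

/-- The bound with the multiplicity. -/
theorem bound_mult (d : ℕ) (hf : Continuous f) (hg : Continuous g) (hL : 0 < L)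
    (hfL : ∀ x, f (x + L) = f x) (hgp : ∀ y, g (y + 2 * π) = g y)
    (hpos : ∀ x y, 0 < f x + g y) {C : ℝ} (hC : 0 < C) : ∃ a : ℝ, 0 ≤ a ∧
      ∀ (lam : ℝ) (φ : ℝ × ℝ → ℝ), Eigen (fun p => f p.1 + g p.2) L 0 lam φ →
        MultiplicityLE (fun p => f p.1 + g p.2) L 0 lam d →
        ∀ p, doubling (fun p => f p.1 + g p.2) L 0 φ p (C / Real.sqrt lam) ≤ a := by
  have h1 : ∀ n : ℕ, ∃ a : ℝ, 0 ≤ a ∧
      ∀ (lam : ℝ) (φ : ℝ × ℝ → ℝ) (e : Fin n → ℝ × ℝ → ℝ) (μ c : Fin n → ℝ), 0 < lam →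
        φ ∈ W hf hg L lam → (∀ i, Joint hf hg L lam (e i) (μ i)) →
        (∀ p, φ p = ∑ i, c i * e i p) →
        ∀ p, doubling (fun p => f p.1 + g p.2) L 0 φ p (C / Real.sqrt lam) ≤ a := fun n =>
    bound_n n hf hg hL hfL hgp hpos hC
  choose a ha0 ha using h1
  refine ⟨∑ n ∈ Finset.range (d + 1), a n, Finset.sum_nonneg fun n _ => ha0 n, ?_⟩
  intro lam φ hφ hd p
  have hlam := hφ.pos
  obtain ⟨hfin, hrk⟩ := fin_of_mult hf hg hlam hd
  obtain ⟨μ, e, h2, h3, h4, h5⟩ := decomp (lam := lam) hf hg hL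
  have hmem := mem_of_eigen hf hg hφ
  obtain ⟨c, hc⟩ := h5 φ hmem
  have h6 := ha (Module.finrank ℝ (W hf hg L lam)) lam φ e μ c hlam hmem
    (fun i => ⟨h2 i, h3 i, h4 i⟩) (fun p => by
      rw [hc]
      simp [Finset.sum_apply]) p
  exact h6.trans (Finset.single_le_sum (fun n _ => ha0 n)
    (Finset.mem_range.2 (Nat.lt_succ_of_le hrk)))

end Pool.Agent.R220.LV
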