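import Pool.Agent.R220.LV.Dec
import Pool.Agent.R220.TI.Main

/-!
# Doubling indices on Liouville tori
-/

set_option autoImplicit false
set_option linter.unusedVariables false
set_option maxHeartbeats 400000

namespace Pool.Agent.R220.LV

open MeasureTheory Real Pool.Agent.Y291.DB Pool.Agent.Y291.PA Function
open Pool.Agent.R220.TI (MultiplicityLE)

variable {f g : ℝ → ℝ} {L lam : ℝ}

/-- From an eigenfunction to the space. -/
theorem mem_of_eigen (hf : Continuous f) (hg : Continuous g) {φ : ℝ × ℝ → ℝ}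
    (h : Eigen (fun p => f p.1 + g p.2) L 0 lam φ) : φ ∈ W hf hg L lam := by
  obtain ⟨φx, φxx, φy, φyy, hs⟩ := sol_of_eigen
    ((hf.comp continuous_fst).add (hg.comp continuous_snd)) h
  refine ⟨h.smooth, φx, φxx, φy, φyy, hs, fun x y => ?_, fun x y => h.pery (x, y)⟩
  have := h.perx (x, y)
  simpa using this

/-- From the space to an eigenfunction. -/
theorem eigen_of_mem (hf : Continuous f) (hg : Continuous g) (hlam : 0 < lam) {φ : ℝ × ℝ → ℝ}
    (h : φ ∈ W hf hg L lam) (hne : φ ≠ 0) : Eigen (fun p => f p.1 + g p.2) L 0 lam φ := by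
  obtain ⟨h1, φx, φxx, φy, φyy, h2⟩ := h
  refine ⟨hlam, h1, fun p => ?_, fun p => h2.py p.1 p.2, ?_, fun p => ?_⟩
  · have := h2.px p.1 p.2
    simpa using this
  · by_contra h3
    push Not at h3
    exact hne (funext h3)
  · rw [Pool.Agent.R220.TI.iter2 (fun t => h2.s.dx t p.2) (h2.s.dxx p.1 p.2),
      Pool.Agent.R220.TI.iter2 (fun t => h2.s.dy p.1 t) (h2.s.dyy p.1 p.2)]
    have h3 : φxx p.1 p.2 + φyy p.1 p.2 = -(lam * (f p.1 + g p.2) * φ (p.1, p.2)) :=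
      h2.s.pde p.1 p.2
    rw [h3]
    simp

/-- Finite multiplicity. -/
theorem fin_of_mult (hf : Continuous f) (hg : Continuous g) (hlam : 0 < lam) {d : ℕ}
    (hd : MultiplicityLE (fun p => f p.1 + g p.2) L 0 lam d) :
    FiniteDimensional ℝ (W hf hg L lam) ∧ Module.finrank ℝ (W hf hg L lam) ≤ d := by
  have h1 : Module.rank ℝ (W hf hg L lam) ≤ d := by
    refine rank_le fun s hs => ?_
    have h2 : LinearIndependent ℝ fun i : Fin s.card => ((s.equivFin.symm i : W hf hg L lam) : ℝ × ℝ → ℝ) := by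
      have h3 : LinearIndependent ℝ fun i : Fin s.card => (s.equivFin.symm i : W hf hg L lam) :=
        hs.comp _ s.equivFin.symm.injective
      exact h3.map' (W hf hg L lam).subtype (Submodule.ker_subtype _)
    refine hd s.card _ (fun i => ?_) h2
    refine eigen_of_mem hf hg hlam (s.equivFin.symm i : W hf hg L lam).2 ?_
    exact h2.ne_zero i
  exact ⟨Module.rank_lt_aleph0_iff.1 (h1.trans_lt (Cardinal.natCast_lt_aleph0)),
    Module.finrank_le_of_rank_le h1⟩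

/-- Joint eigenfunctions. -/
structure Joint (hf : Continuous f) (hg : Continuous g) (L lam : ℝ) (e : ℝ × ℝ → ℝ) (μ : ℝ) :
    Prop where
  mem : e ∈ W hf hg L lam
  ne : e ≠ 0
  A : Aop f lam e = μ • e

/-- The estimate in two dimensions for sums of joint eigenfunctions. -/
theorem two_dim (n : ℕ) {F G b R : ℝ} (hb : 0 < b) (hbR : b ≤ R) : ∃ Λ : ℝ, 1 ≤ Λ ∧
    ∀ (f g : ℝ → ℝ) (hf : Continuous f) (hg : Continuous g) (L lam : ℝ) (e : Fin n → ℝ × ℝ → ℝ)
      (μ c : Fin n → ℝ), 0 < L → 0 < lam → (∀ x, |f x| ≤ F) → (∀ y, |g y| ≤ G) →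
      (∀ i, Joint hf hg L lam (e i) (μ i)) → ∀ (p : ℝ × ℝ) (ε : ℝ), 0 ≤ ε →
      (∀ s t, |s| ≤ b → |t| ≤ b →
        |∑ i, c i * e i (p.1 + s * (1 / Real.sqrt lam), p.2 + t * (1 / Real.sqrt lam))| ≤ ε) →
      ∀ s t, |s| ≤ R → |t| ≤ R →
        |∑ i, c i * e i (p.1 + s * (1 / Real.sqrt lam), p.2 + t * (1 / Real.sqrt lam))| ≤
          Λ * ε := by
  obtain ⟨C, hC, H⟩ := line_est n (M := 2 * (|F| + |G|)) (R := R) (by positivity) hb
  refine ⟨C * C + 1, by nlinarith [mul_pos hC hC], ?_⟩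
  intro f g hf hg L lam e μ c hL hlam hF hG hJ p ε hε h0
  have hF' : ∀ x, |f x| ≤ |F| := fun x => (hF x).trans (le_abs_self _)
  have hG' : ∀ x, |g x| ≤ |G| := fun x => (hG x).trans (le_abs_self _)
  have hμ1 : ∀ i, μ i / lam ≤ |F| := by
    intro i
    rw [div_le_iff₀ hlam]
    have := mu_le hL (hJ i).mem (hJ i).ne (hJ i).A hlam (M := |F|)
      (fun x => (le_abs_self _).trans (hF' x))
    linarith
  have hμ2 : ∀ i, -|G| ≤ μ i / lam := by
    intro i
    rw [le_div_iff₀ hlam]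
    have := mu_ge hL (hJ i).mem (hJ i).ne (hJ i).A hlam (M := |G|)
      (fun x => (le_abs_self _).trans (hG' x))
    linarith
  have hF0 := abs_nonneg F
  have hG0 := abs_nonneg G
  have hqx : ∀ i t, |f t - μ i / lam| ≤ 2 * (|F| + |G|) := by
    intro i t
    have h1 := abs_le.1 (hF' t)
    have h2 := hμ1 i
    have h3 := hμ2 i
    rw [abs_le]
    constructor <;> linarith [h1.1, h1.2]
  have hqy : ∀ i t, |g t - (-μ i) / lam| ≤ 2 * (|F| + |G|) := by
    intro i t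
    have h1 := abs_le.1 (hG' t)
    have h2 := hμ1 i
    have h3 := hμ2 i
    rw [neg_div, sub_neg_eq_add, abs_le]
    constructor <;> linarith [h1.1, h1.2]
  have hdat : ∀ i, ∃ φx φxx φy φyy : ℝ → ℝ → ℝ,
      SP f g L lam (fun x y => e i (x, y)) φx φxx φy φyy := fun i => (hJ i).mem.2
  choose φx φxx φy φyy hSP using hdat
  have hx : ∀ y ε', 0 ≤ ε' → (∀ t, |t| ≤ b →
      |∑ i, c i * e i (p.1 + t * (1 / Real.sqrt lam), y)| ≤ ε') → ∀ t, |t| ≤ R →
      |∑ i, c i * e i (p.1 + t * (1 / Real.sqrt lam), y)| ≤ C * ε' := by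
    intro y ε' hε' h1
    refine H f lam μ (fun i x => c i * e i (x, y)) (fun i x => c i * φx i x y) p.1 ε' hlam hqx
      (fun i t => ((hSP i).s.dx t y).const_mul (c i)) (fun i t => ?_) hε' h1
    have h2 := ((hSP i).s.dxx t y).const_mul (c i)
    refine h2.congr_deriv ?_
    rw [(joint_deriv (hSP i) (hJ i).A t y).1]
    ring
  have hy : ∀ x ε', 0 ≤ ε' → (∀ t, |t| ≤ b →
      |∑ i, c i * e i (x, p.2 + t * (1 / Real.sqrt lam))| ≤ ε') → ∀ t, |t| ≤ R →
      |∑ i, c i * e i (x, p.2 + t * (1 / Real.sqrt lam))| ≤ C * ε' := by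
    intro x ε' hε' h1
    refine H g lam (fun i => -μ i) (fun i y => c i * e i (x, y)) (fun i y => c i * φy i x y) p.2 ε'
      hlam hqy (fun i t => ((hSP i).s.dy x t).const_mul (c i)) (fun i t => ?_) hε' h1
    have h2 := ((hSP i).s.dyy x t).const_mul (c i)
    refine h2.congr_deriv ?_
    rw [(joint_deriv (hSP i) (hJ i).A x t).2]
    ring
  intro s t hs ht
  have h1 := hy (p.1 + s * (1 / Real.sqrt lam)) (C * ε) (by positivity) (fun t' ht' =>
    hx (p.2 + t' * (1 / Real.sqrt lam)) ε hε (fun s' hs' => h0 s' t' hs' ht') s hs) t ht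
  calc _ ≤ C * (C * ε) := h1
    _ ≤ (C * C + 1) * ε := by nlinarith

/-- The doubling index from an estimate on squares. -/
theorem dbl {ρ : ℝ × ℝ → ℝ} {L α lam ρm ρM C b R Λ : ℝ} {φ : ℝ × ℝ → ℝ} (hL : 0 < L)
    (hρc : Continuous ρ) (hρ0 : 0 < ρm) (hρm : ∀ p, ρm ≤ ρ p) (hρM : ∀ p, ρ p ≤ ρM)
    (hlam : 0 < lam) (hφc : Continuous φ) (hpx : ∀ p : ℝ × ℝ, φ (p.1 + L, p.2 + α) = φ p)
    (hpy : ∀ p : ℝ × ℝ, φ (p.1, p.2 + 2 * π) = φ p) (hC : 0 < C) (hb : 0 < b)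
    (hbC : 2 * b * Real.sqrt ρM < C) (hR : 2 * C / Real.sqrt ρm ≤ R) (hΛ : 1 ≤ Λ) (p : ℝ × ℝ)
    (h : ∀ ε, 0 ≤ ε → (∀ s t, |s| ≤ b → |t| ≤ b →
        |φ (p.1 + s * (1 / Real.sqrt lam), p.2 + t * (1 / Real.sqrt lam))| ≤ ε) →
      ∀ s t, |s| ≤ R → |t| ≤ R →
        |φ (p.1 + s * (1 / Real.sqrt lam), p.2 + t * (1 / Real.sqrt lam))| ≤ Λ * ε) :
    doubling ρ L α φ p (C / Real.sqrt lam) ≤ Real.logb 2 Λ := by
  have hsl : 0 < Real.sqrt lam := Real.sqrt_pos.2 hlam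
  have hsm : 0 < Real.sqrt ρm := Real.sqrt_pos.2 hρ0
  set δ := 1 / Real.sqrt lam with hδ
  have hδ0 : 0 < δ := by positivity
  have hr : C / Real.sqrt lam = C * δ := by rw [hδ]; ring
  obtain ⟨B, hB0, hB⟩ := bounded_of_per hL hφc hpx hpy
  have hbdd : BddAbove ((fun q => |φ q|) '' disc ρ L α p (C / Real.sqrt lam)) :=
    ⟨B, by rintro _ ⟨q, _, rfl⟩; exact hB q⟩
  set ε := sSup ((fun q => |φ q|) '' disc ρ L α p (C / Real.sqrt lam)) with hε
  have hin : ∀ q : ℝ × ℝ, |q.1 - p.1| ≤ b * δ → |q.2 - p.2| ≤ b * δ →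
      q ∈ disc ρ L α p (C / Real.sqrt lam) := by
    intro q h1 h2
    have h3 := gdist_le (L := L) (α := α) hρM hρc p q
    show gdist ρ L α p q < C / Real.sqrt lam
    rw [hr]
    refine h3.trans_lt ?_
    have h4 : Real.sqrt ρM * (|q.1 - p.1| + |q.2 - p.2|) ≤ Real.sqrt ρM * (b * δ + b * δ) := by
      gcongr
    have h5 : Real.sqrt ρM * (b * δ + b * δ) = (2 * b * Real.sqrt ρM) * δ := by ring
    rw [h5] at h4
    exact h4.trans_lt (mul_lt_mul_of_pos_right hbC hδ0)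
  have hε0 : 0 ≤ ε := by
    have h1 : |φ p| ≤ ε := le_csSup hbdd ⟨p, hin p (by simpa using by positivity)
      (by simpa using by positivity), rfl⟩
    exact (abs_nonneg _).trans h1
  have hsmall : ∀ s t, |s| ≤ b → |t| ≤ b → |φ (p.1 + s * δ, p.2 + t * δ)| ≤ ε := by
    intro s t hs ht
    refine le_csSup hbdd ⟨_, hin _ ?_ ?_, rfl⟩
    · show |p.1 + s * δ - p.1| ≤ b * δ
      rw [add_sub_cancel_left, abs_mul, abs_of_pos hδ0]
      gcongr
    · show |p.2 + t * δ - p.2| ≤ b * δ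
      rw [add_sub_cancel_left, abs_mul, abs_of_pos hδ0]
      gcongr
  have hbig := h ε hε0 hsmall
  have hsup : sSup ((fun q => |φ q|) '' disc ρ L α p (2 * (C / Real.sqrt lam))) ≤ Λ * ε := by
    refine Real.sSup_le ?_ (by positivity)
    rintro _ ⟨q, hq, rfl⟩
    obtain ⟨m, n, h1, h2⟩ := gdist_lt hρ0 hρm hρc hq
    have e1 : φ q = φ (p.1 + (q.1 + m * L - p.1) / δ * δ,
        p.2 + (q.2 + m * α + n * (2 * π) - p.2) / δ * δ) := by
      rw [div_mul_cancel₀ _ hδ0.ne', div_mul_cancel₀ _ hδ0.ne', add_sub_cancel, add_sub_cancel]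
      exact (per_all hpx hpy m n q).symm
    have hRδ : 2 * (C / Real.sqrt lam) / Real.sqrt ρm ≤ R * δ := by
      rw [hr]
      have : 2 * (C * δ) / Real.sqrt ρm = 2 * C / Real.sqrt ρm * δ := by ring
      rw [this]
      exact mul_le_mul_of_nonneg_right hR hδ0.le
    show |φ q| ≤ Λ * ε
    rw [e1]
    refine hbig _ _ ?_ ?_
    · rw [abs_div, abs_of_pos hδ0, div_le_iff₀ hδ0]
      exact h1.trans hRδ
    · rw [abs_div, abs_of_pos hδ0, div_le_iff₀ hδ0]
      exact h2.trans hRδ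
  have hlogΛ : 0 ≤ Real.logb 2 Λ := Real.logb_nonneg one_lt_two hΛ
  unfold doubling
  rw [← hε]
  have hS2 : 0 ≤ sSup ((fun q => |φ q|) '' disc ρ L α p (2 * (C / Real.sqrt lam))) :=
    Real.sSup_nonneg (by rintro _ ⟨q, _, rfl⟩; exact abs_nonneg _)
  have hrat : sSup ((fun q => |φ q|) '' disc ρ L α p (2 * (C / Real.sqrt lam))) / ε ≤ Λ := by
    rcases hε0.eq_or_lt with h0 | h0
    · rw [← h0, div_zero]
      linarith
    · rw [div_le_iff₀ h0]
      exact hsup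
  rcases (div_nonneg hS2 hε0).eq_or_lt with h0 | h0
  · rw [← h0, Real.logb_zero]
    exact hlogΛ
  · exact Real.logb_le_logb_of_le one_lt_two h0 hrat

end Pool.Agent.R220.LV
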