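import Pool.Agent.R220.TI.Mult

/-!
# The triple product of solutions of a separable equation
-/

set_option autoImplicit false

namespace Pool.Agent.R220.LV

open MeasureTheory Real Pool.Agent.Y291.DB Pool.Agent.Y291.PA Function

/-- Parametric integrals of continuous functions. -/
theorem par_cont {X : Type} [TopologicalSpace X] {F : X → ℝ → ℝ} (hF : Continuous (uncurry F))
    (a b : ℝ) : Continuous fun x => ∫ s in a..b, F x s :=
  intervalIntegral.continuous_parametric_intervalIntegral_of_continuous' hF a b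

/-- Differentiation under the integral. -/
theorem par_deriv {F F' : ℝ → ℝ → ℝ} (hF : Continuous (uncurry F)) (hF' : Continuous (uncurry F'))
    (hd : ∀ t s, HasDerivAt (fun t => F t s) (F' t s) t) (a b t : ℝ) :
    HasDerivAt (fun t => ∫ s in a..b, F t s) (∫ s in a..b, F' t s) t := by
  obtain ⟨C, hC⟩ := ((isCompact_Icc (a := t - 1) (b := t + 1)).prod
    (isCompact_uIcc (a := a) (b := b))).exists_bound_of_continuousOn hF'.continuousOn
  refine (intervalIntegral.hasDerivAt_integral_of_dominated_loc_of_deriv_le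
    (s := Set.Icc (t - 1) (t + 1)) (bound := fun _ => C) (F' := F')
    (Icc_mem_nhds (by linarith) (by linarith)) ?_ ?_ ?_ ?_ ?_ ?_).2
  · exact Filter.Eventually.of_forall fun x =>
      (hF.comp (Continuous.prodMk_right x)).aestronglyMeasurable
  · exact (hF.comp (Continuous.prodMk_right t)).intervalIntegrable _ _
  · exact (hF'.comp (Continuous.prodMk_right t)).aestronglyMeasurable
  · exact Filter.Eventually.of_forall fun s hs x hx =>
      hC (x, s) ⟨hx, Set.uIoc_subset_uIcc hs⟩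
  · exact continuous_const.intervalIntegrable _ _
  · exact Filter.Eventually.of_forall fun s _ x _ => hd x s

/-- Exchange of integrals. -/
theorem swap {F : ℝ → ℝ → ℝ} (hF : Continuous (uncurry F)) (a b c d : ℝ) :
    ∫ x in a..b, ∫ y in c..d, F x y = ∫ y in c..d, ∫ x in a..b, F x y := by
  refine intervalIntegral_intervalIntegral_swap ?_
  exact (hF.continuousOn.integrableOn_compact (isCompact_uIcc.prod isCompact_uIcc)).mono_set
    (Set.prod_mono Set.uIoc_subset_uIcc Set.uIoc_subset_uIcc)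

/-- Integration by parts for periodic functions. -/
theorem ibp {u u' u'' v v' v'' : ℝ → ℝ} (hu : ∀ t, HasDerivAt u (u' t) t)
    (hu' : ∀ t, HasDerivAt u' (u'' t) t) (hv : ∀ t, HasDerivAt v (v' t) t)
    (hv' : ∀ t, HasDerivAt v' (v'' t) t) (cu : Continuous u'') (cv : Continuous v'') {P : ℝ}
    (pu : u P = u 0) (pu' : u' P = u' 0) (pv : v P = v 0) (pv' : v' P = v' 0) :
    ∫ t in (0 : ℝ)..P, u'' t * v t = ∫ t in (0 : ℝ)..P, u t * v'' t := by
  have c1 : Continuous u := continuous_iff_continuousAt.2 fun t => (hu t).continuousAt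
  have c2 : Continuous v := continuous_iff_continuousAt.2 fun t => (hv t).continuousAt
  have h1 : ∀ t ∈ Set.uIcc (0 : ℝ) P, HasDerivAt (fun t => u' t * v t - u t * v' t)
      (u'' t * v t - u t * v'' t) t := by
    intro t _
    have h2 := ((hu' t).mul (hv t)).sub ((hu t).mul (hv' t))
    refine h2.congr_deriv ?_
    ring
  have h3 := intervalIntegral.integral_eq_sub_of_hasDerivAt h1
    (((cu.mul c2).sub (c1.mul cv)).intervalIntegrable _ _)
  have h4 := intervalIntegral.integral_sub (f := fun t => u'' t * v t) (g := fun t => u t * v'' t)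
    ((cu.mul c2).intervalIntegrable (μ := volume) 0 P)
    ((c1.mul cv).intervalIntegrable (μ := volume) 0 P)
  rw [pu, pu', pv, pv', sub_self, h4] at h3
  linarith

/-- The triple product. -/
noncomputable def Ps (L : ℝ) (a b c : ℝ → ℝ → ℝ) (x y : ℝ) : ℝ :=
  ∫ x' in (0 : ℝ)..L, ∫ y' in (0 : ℝ)..(2 * π), a x y' * b x' y' * c x' y

section
variable {L : ℝ} {a b c : ℝ → ℝ → ℝ}

theorem Ps_cont (ha : Continuous (uncurry a)) (hb : Continuous (uncurry b))
    (hc : Continuous (uncurry c)) : Continuous (uncurry (Ps L a b c)) := by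
  unfold Ps
  have h1 : Continuous fun p : ((ℝ × ℝ) × ℝ) × ℝ => a p.1.1.1 p.2 * b p.1.2 p.2 * c p.1.2 p.1.1.2 := by
    have e1 : Continuous fun p : ((ℝ × ℝ) × ℝ) × ℝ => uncurry a (p.1.1.1, p.2) :=
      ha.comp (by fun_prop)
    have e2 : Continuous fun p : ((ℝ × ℝ) × ℝ) × ℝ => uncurry b (p.1.2, p.2) :=
      hb.comp (by fun_prop)
    have e3 : Continuous fun p : ((ℝ × ℝ) × ℝ) × ℝ => uncurry c (p.1.2, p.1.1.2) :=
      hc.comp (by fun_prop)
    exact (e1.mul e2).mul e3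
  have h2 : Continuous fun p : (ℝ × ℝ) × ℝ =>
      ∫ y' in (0 : ℝ)..(2 * π), a p.1.1 y' * b p.2 y' * c p.2 p.1.2 :=
    par_cont (F := fun (p : (ℝ × ℝ) × ℝ) (y' : ℝ) => a p.1.1 y' * b p.2 y' * c p.2 p.1.2) h1 _ _
  exact par_cont (F := fun (p : ℝ × ℝ) (x' : ℝ) =>
    ∫ y' in (0 : ℝ)..(2 * π), a p.1 y' * b x' y' * c x' p.2) h2 _ _

theorem Ps_dx {a' : ℝ → ℝ → ℝ} (ha : Continuous (uncurry a)) (ha' : Continuous (uncurry a'))
    (hb : Continuous (uncurry b)) (hc : Continuous (uncurry c))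
    (hd : ∀ x y, HasDerivAt (fun t => a t y) (a' x y) x) (x y : ℝ) :
    HasDerivAt (fun t => Ps L a b c t y) (Ps L a' b c x y) x := by
  have hcon : ∀ α : ℝ → ℝ → ℝ, Continuous (uncurry α) → Continuous fun p : (ℝ × ℝ) × ℝ =>
      α p.1.1 p.2 * b p.1.2 p.2 * c p.1.2 y := by
    intro α hα
    have e1 : Continuous fun p : (ℝ × ℝ) × ℝ => uncurry α (p.1.1, p.2) := hα.comp (by fun_prop)
    have e2 : Continuous fun p : (ℝ × ℝ) × ℝ => uncurry b (p.1.2, p.2) := hb.comp (by fun_prop)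
    have e3 : Continuous fun p : (ℝ × ℝ) × ℝ => uncurry c (p.1.2, y) := hc.comp (by fun_prop)
    exact (e1.mul e2).mul e3
  have hcon2 : ∀ α : ℝ → ℝ → ℝ, Continuous (uncurry α) → Continuous (uncurry fun t x' : ℝ =>
      ∫ y' in (0 : ℝ)..(2 * π), α t y' * b x' y' * c x' y) := fun α hα =>
    par_cont (F := fun (p : ℝ × ℝ) (y' : ℝ) => α p.1 y' * b p.2 y' * c p.2 y) (hcon α hα) _ _
  refine par_deriv (hcon2 a ha) (hcon2 a' ha') (fun t x' => ?_) _ _ x
  have hcon3 : ∀ α : ℝ → ℝ → ℝ, Continuous (uncurry α) → Continuous (uncurry fun t y' : ℝ =>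
      α t y' * b x' y' * c x' y) := by
    intro α hα
    have e1 : Continuous fun p : ℝ × ℝ => uncurry α (p.1, p.2) := hα.comp (by fun_prop)
    have e2 : Continuous fun p : ℝ × ℝ => uncurry b (x', p.2) := hb.comp (by fun_prop)
    exact (e1.mul e2).mul continuous_const
  exact par_deriv (hcon3 a ha) (hcon3 a' ha')
    (fun t y' => ((hd t y').mul_const (b x' y')).mul_const (c x' y)) _ _ t

theorem Ps_dy {c' : ℝ → ℝ → ℝ} (ha : Continuous (uncurry a)) (hc' : Continuous (uncurry c'))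
    (hb : Continuous (uncurry b)) (hc : Continuous (uncurry c))
    (hd : ∀ x y, HasDerivAt (fun t => c x t) (c' x y) y) (x y : ℝ) :
    HasDerivAt (fun t => Ps L a b c x t) (Ps L a b c' x y) y := by
  have hcon : ∀ γ : ℝ → ℝ → ℝ, Continuous (uncurry γ) → Continuous fun p : (ℝ × ℝ) × ℝ =>
      a x p.2 * b p.1.2 p.2 * γ p.1.2 p.1.1 := by
    intro γ hγ
    have e1 : Continuous fun p : (ℝ × ℝ) × ℝ => uncurry a (x, p.2) := ha.comp (by fun_prop)
    have e2 : Continuous fun p : (ℝ × ℝ) × ℝ => uncurry b (p.1.2, p.2) := hb.comp (by fun_prop)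
    have e3 : Continuous fun p : (ℝ × ℝ) × ℝ => uncurry γ (p.1.2, p.1.1) := hγ.comp (by fun_prop)
    exact (e1.mul e2).mul e3
  have hcon2 : ∀ γ : ℝ → ℝ → ℝ, Continuous (uncurry γ) → Continuous (uncurry fun t x' : ℝ =>
      ∫ y' in (0 : ℝ)..(2 * π), a x y' * b x' y' * γ x' t) := fun γ hγ =>
    par_cont (F := fun (p : ℝ × ℝ) (y' : ℝ) => a x y' * b p.2 y' * γ p.2 p.1) (hcon γ hγ) _ _
  refine par_deriv (hcon2 c hc) (hcon2 c' hc') (fun t x' => ?_) _ _ y
  have hcon3 : ∀ γ : ℝ → ℝ → ℝ, Continuous (uncurry γ) → Continuous (uncurry fun t y' : ℝ =>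
      a x y' * b x' y' * γ x' t) := by
    intro γ hγ
    have e1 : Continuous fun p : ℝ × ℝ => uncurry a (x, p.2) := ha.comp (by fun_prop)
    have e2 : Continuous fun p : ℝ × ℝ => uncurry b (x', p.2) := hb.comp (by fun_prop)
    have e3 : Continuous fun p : ℝ × ℝ => uncurry γ (x', p.1) := hγ.comp (by fun_prop)
    exact (e1.mul e2).mul e3
  exact par_deriv (hcon3 c hc) (hcon3 c' hc')
    (fun t y' => (hd x' t).const_mul (a x y' * b x' y')) _ _ t

/-- The second form of the triple product. -/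
theorem Ps_swap (ha : Continuous (uncurry a)) (hb : Continuous (uncurry b))
    (hc : Continuous (uncurry c)) (x y : ℝ) : Ps L a b c x y =
      ∫ y' in (0 : ℝ)..(2 * π), ∫ x' in (0 : ℝ)..L, a x y' * b x' y' * c x' y := by
  refine swap (F := fun x' y' => a x y' * b x' y' * c x' y) ?_ _ _ _ _
  have e1 : Continuous fun p : ℝ × ℝ => uncurry a (x, p.2) := ha.comp (by fun_prop)
  have e2 : Continuous fun p : ℝ × ℝ => uncurry b (p.1, p.2) := hb.comp (by fun_prop)
  have e3 : Continuous fun p : ℝ × ℝ => uncurry c (p.1, y) := hc.comp (by fun_prop)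
  exact (e1.mul e2).mul e3

end

/-- A `C²` function from its partial derivatives. -/
theorem contDiff_one_of {F Fx Fy : ℝ → ℝ → ℝ} (cx : Continuous (uncurry Fx))
    (cy : Continuous (uncurry Fy)) (dx : ∀ x y, HasDerivAt (fun t => F t y) (Fx x y) x)
    (dy : ∀ x y, HasDerivAt (fun t => F x t) (Fy x y) y) :
    (∀ p : ℝ × ℝ, HasFDerivAt (uncurry F) ((ContinuousLinearMap.toSpanSingleton ℝ
      (Fx p.1 p.2)).coprod (ContinuousLinearMap.toSpanSingleton ℝ (Fy p.1 p.2))) p) ∧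
      ContDiff ℝ 1 (uncurry F) := by
  have c1 : Continuous (uncurry fun x y => ContinuousLinearMap.toSpanSingleton ℝ (Fx x y)) :=
    (ContinuousLinearMap.toSpanSingletonCLE (𝕜 := ℝ) (E := ℝ)).continuous.comp cx
  have c2 : Continuous (uncurry fun x y => ContinuousLinearMap.toSpanSingleton ℝ (Fy x y)) :=
    (ContinuousLinearMap.toSpanSingletonCLE (𝕜 := ℝ) (E := ℝ)).continuous.comp cy
  have h1 : ∀ p : ℝ × ℝ, HasFDerivAt (uncurry F) ((ContinuousLinearMap.toSpanSingleton ℝ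
      (Fx p.1 p.2)).coprod (ContinuousLinearMap.toSpanSingleton ℝ (Fy p.1 p.2))) p := by
    intro p
    exact (hasStrictFDerivAt_uncurry_coprod (u := p) (f := F)
      (f₁ := fun x y => ContinuousLinearMap.toSpanSingleton ℝ (Fx x y))
      (f₂ := fun x y => ContinuousLinearMap.toSpanSingleton ℝ (Fy x y))
      (Filter.Eventually.of_forall fun v => (dx v.1 v.2).hasFDerivAt)
      (Filter.Eventually.of_forall fun v => (dy v.1 v.2).hasFDerivAt)
      c1.continuousAt c2.continuousAt).hasFDerivAt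
  refine ⟨h1, contDiff_one_iff_hasFDerivAt.2 ⟨_, ?_, h1⟩⟩
  exact (ContinuousLinearMap.coprodEquivL (𝕜 := ℝ) (E := ℝ) (F := ℝ) (G := ℝ) ℝ).continuous.comp (c1.prodMk c2)

theorem contDiff_two_of {F Fx Fy Fxx Fxy Fyx Fyy : ℝ → ℝ → ℝ}
    (cxx : Continuous (uncurry Fxx)) (cxy : Continuous (uncurry Fxy))
    (cyx : Continuous (uncurry Fyx)) (cyy : Continuous (uncurry Fyy))
    (dx : ∀ x y, HasDerivAt (fun t => F t y) (Fx x y) x)
    (dy : ∀ x y, HasDerivAt (fun t => F x t) (Fy x y) y)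
    (dxx : ∀ x y, HasDerivAt (fun t => Fx t y) (Fxx x y) x)
    (dxy : ∀ x y, HasDerivAt (fun t => Fx x t) (Fxy x y) y)
    (dyx : ∀ x y, HasDerivAt (fun t => Fy t y) (Fyx x y) x)
    (dyy : ∀ x y, HasDerivAt (fun t => Fy x t) (Fyy x y) y) :
    ContDiff ℝ 2 (uncurry F) := by
  obtain ⟨h1, h2⟩ := contDiff_one_of cxx cxy dxx dxy
  obtain ⟨h3, h4⟩ := contDiff_one_of cyx cyy dyx dyy
  obtain ⟨h5, h6⟩ := contDiff_one_of h2.continuous h4.continuous dx dy
  have h7 : (2 : WithTop ℕ∞) = ((1 : ℕ) : WithTop ℕ∞) + 1 := by norm_num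
  rw [h7, contDiff_succ_iff_hasFDerivAt]
  refine ⟨_, ?_, h5⟩
  rw [Nat.cast_one]
  have e1 : ContDiff ℝ 1 fun p : ℝ × ℝ => ContinuousLinearMap.toSpanSingleton ℝ (Fx p.1 p.2) :=
    (ContinuousLinearMap.toSpanSingletonCLE (𝕜 := ℝ) (E := ℝ)).contDiff.comp h2
  have e2 : ContDiff ℝ 1 fun p : ℝ × ℝ => ContinuousLinearMap.toSpanSingleton ℝ (Fy p.1 p.2) :=
    (ContinuousLinearMap.toSpanSingletonCLE (𝕜 := ℝ) (E := ℝ)).contDiff.comp h4
  exact (ContinuousLinearMap.coprodEquivL (𝕜 := ℝ) (E := ℝ) (F := ℝ) (G := ℝ) ℝ).contDiff.comp (e1.prodMk e2)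

end Pool.Agent.R220.LV
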