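import Pool.Agent.R220.LV.Psi

/-!
# Solutions of the separable equation `φ_xx + φ_yy + lam (f(x) + g(y)) φ = 0`
-/

set_option autoImplicit false
set_option linter.unusedVariables false

namespace Pool.Agent.R220.LV

open MeasureTheory Real Pool.Agent.Y291.DB Pool.Agent.Y291.PA Function

/-- Periodic solutions with their derivatives. -/
structure SP (f g : ℝ → ℝ) (L lam : ℝ) (φ φx φxx φy φyy : ℝ → ℝ → ℝ) : Prop where
  s : Sol2 (fun x y => lam * (f x + g y)) φ φx φxx φy φyy
  px : ∀ x y, φ (x + L) y = φ x y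
  py : ∀ x y, φ x (y + 2 * π) = φ x y

variable {f g : ℝ → ℝ} {L lam : ℝ}

theorem int_add {u v : ℝ → ℝ} (hu : Continuous u) (hv : Continuous v) (a b : ℝ) :
    ∫ t in a..b, (u t + v t) = (∫ t in a..b, u t) + ∫ t in a..b, v t :=
  intervalIntegral.integral_add (hu.intervalIntegrable _ _) (hv.intervalIntegrable _ _)

theorem int_sub {u v : ℝ → ℝ} (hu : Continuous u) (hv : Continuous v) (a b : ℝ) :
    ∫ t in a..b, (u t - v t) = (∫ t in a..b, u t) - ∫ t in a..b, v t :=
  intervalIntegral.integral_sub (hu.intervalIntegrable _ _) (hv.intervalIntegrable _ _)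

section one
variable {φ φx φxx φy φyy : ℝ → ℝ → ℝ}

theorem SP.px1 (h : SP f g L lam φ φx φxx φy φyy) (x y : ℝ) : φx (x + L) y = φx x y := by
  have h1 : HasDerivAt (fun t => φ (t + L) y) (φx (x + L) y) x :=
    (h.s.dx (x + L) y).comp_add_const x L
  have h2 : (fun t => φ (t + L) y) = fun t => φ t y := funext fun t => h.px t y
  rw [h2] at h1
  exact h1.unique (h.s.dx x y)

theorem SP.py2 (h : SP f g L lam φ φx φxx φy φyy) (x y : ℝ) : φy x (y + 2 * π) = φy x y := by
  have h1 : HasDerivAt (fun t => φ x (t + 2 * π)) (φy x (y + 2 * π)) y :=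
    (h.s.dy x (y + 2 * π)).comp_add_const y (2 * π)
  have h2 : (fun t => φ x (t + 2 * π)) = fun t => φ x t := funext fun t => h.py x t
  rw [h2] at h1
  exact h1.unique (h.s.dy x y)

/-- The operator `∂_x² + lam f`. -/
def AA (f : ℝ → ℝ) (lam : ℝ) (φ φxx : ℝ → ℝ → ℝ) (x y : ℝ) : ℝ := φxx x y + lam * f x * φ x y

theorem AA_cont (hf : Continuous f) (h : SP f g L lam φ φx φxx φy φyy) :
    Continuous (uncurry (AA f lam φ φxx)) := by
  have h1 := h.s.cxx
  have h2 := h.s.c
  have h3 : Continuous fun p : ℝ × ℝ => uncurry φxx p + lam * f p.1 * uncurry φ p :=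
    h1.add ((continuous_const.mul (hf.comp continuous_fst)).mul h2)
  exact h3

theorem AA_eq (h : SP f g L lam φ φx φxx φy φyy) (x y : ℝ) :
    AA f lam φ φxx x y = -(φyy x y + lam * g y * φ x y) := by
  have := h.s.pde x y
  unfold AA
  linarith

end one

section two
variable {a ax axx ay ayy b bx bxx bz byy c cx cxx cy cyy : ℝ → ℝ → ℝ}

theorem I0y (hg : Continuous g) (ha : SP f g L lam a ax axx ay ayy)
    (hb : SP f g L lam b bx bxx bz byy) (x x' : ℝ) :
    ∫ y' in (0 : ℝ)..(2 * π), AA f lam a axx x y' * b x' y' =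
      ∫ y' in (0 : ℝ)..(2 * π), a x y' * AA f lam b bxx x' y' := by
  have ca : Continuous fun t => a x t := ha.s.c.comp (Continuous.prodMk_right x)
  have cb : Continuous fun t => b x' t := hb.s.c.comp (Continuous.prodMk_right x')
  have ca2 : Continuous fun t => ayy x t := ha.s.cyy.comp (Continuous.prodMk_right x)
  have cb2 : Continuous fun t => byy x' t := hb.s.cyy.comp (Continuous.prodMk_right x')
  have h1 := ibp (u := fun t => a x t) (u' := fun t => ay x t) (u'' := fun t => ayy x t)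
    (v := fun t => b x' t) (v' := fun t => bz x' t) (v'' := fun t => byy x' t)
    (fun t => ha.s.dy x t) (fun t => ha.s.dyy x t) (fun t => hb.s.dy x' t)
    (fun t => hb.s.dyy x' t) ca2 cb2 (P := 2 * π)
    (by have := ha.py x 0; rwa [zero_add] at this) (by have := ha.py2 x 0; rwa [zero_add] at this)
    (by have := hb.py x' 0; rwa [zero_add] at this)
    (by have := hb.py2 x' 0; rwa [zero_add] at this)
  have e1 : ∀ y', AA f lam a axx x y' * b x' y' =
      -(ayy x y' * b x' y') - lam * (g y' * (a x y' * b x' y')) := fun y' => by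
    rw [AA_eq ha]; ring
  have e2 : ∀ y', a x y' * AA f lam b bxx x' y' =
      -(a x y' * byy x' y') - lam * (g y' * (a x y' * b x' y')) := fun y' => by
    rw [AA_eq hb]; ring
  simp only [e1, e2]
  have k1 : Continuous fun t => -(ayy x t * b x' t) := (ca2.mul cb).neg
  have k2 : Continuous fun t => -(a x t * byy x' t) := (ca.mul cb2).neg
  have k3 : Continuous fun t => lam * (g t * (a x t * b x' t)) :=
    continuous_const.mul (hg.mul (ca.mul cb))
  rw [int_sub k1 k3, int_sub k2 k3,
    intervalIntegral.integral_neg, intervalIntegral.integral_neg, h1]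

theorem I0x (hf : Continuous f) (hb : SP f g L lam b bx bxx bz byy)
    (hc : SP f g L lam c cx cxx cy cyy) (y y' : ℝ) :
    ∫ x' in (0 : ℝ)..L, AA f lam b bxx x' y' * c x' y =
      ∫ x' in (0 : ℝ)..L, b x' y' * AA f lam c cxx x' y := by
  have cb : Continuous fun t => b t y' := hb.s.c.comp (Continuous.prodMk_left y')
  have cc : Continuous fun t => c t y := hc.s.c.comp (Continuous.prodMk_left y)
  have cb2 : Continuous fun t => bxx t y' := hb.s.cxx.comp (Continuous.prodMk_left y')
  have cc2 : Continuous fun t => cxx t y := hc.s.cxx.comp (Continuous.prodMk_left y)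
  have h1 := ibp (u := fun t => b t y') (u' := fun t => bx t y') (u'' := fun t => bxx t y')
    (v := fun t => c t y) (v' := fun t => cx t y) (v'' := fun t => cxx t y)
    (fun t => hb.s.dx t y') (fun t => hb.s.dxx t y') (fun t => hc.s.dx t y)
    (fun t => hc.s.dxx t y) cb2 cc2 (P := L)
    (by have := hb.px 0 y'; rwa [zero_add] at this) (by have := hb.px1 0 y'; rwa [zero_add] at this)
    (by have := hc.px 0 y; rwa [zero_add] at this)
    (by have := hc.px1 0 y; rwa [zero_add] at this)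
  have e1 : ∀ x', AA f lam b bxx x' y' * c x' y =
      bxx x' y' * c x' y + lam * (f x' * (b x' y' * c x' y)) := fun x' => by
    unfold AA; ring
  have e2 : ∀ x', b x' y' * AA f lam c cxx x' y =
      b x' y' * cxx x' y + lam * (f x' * (b x' y' * c x' y)) := fun x' => by
    unfold AA; ring
  simp only [e1, e2]
  have k1 : Continuous fun t => bxx t y' * c t y := cb2.mul cc
  have k2 : Continuous fun t => b t y' * cxx t y := cb.mul cc2
  have k3 : Continuous fun t => lam * (f t * (b t y' * c t y)) :=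
    continuous_const.mul (hf.mul (cb.mul cc))
  rw [int_add k1 k3, int_add k2 k3, h1]

theorem I1 (hg : Continuous g) (ha : SP f g L lam a ax axx ay ayy)
    (hb : SP f g L lam b bx bxx bz byy) (γ : ℝ → ℝ → ℝ) (x y : ℝ) :
    Ps L (AA f lam a axx) b γ x y = Ps L a (AA f lam b bxx) γ x y := by
  unfold Ps
  congr 1
  funext x'
  rw [intervalIntegral.integral_mul_const, intervalIntegral.integral_mul_const,
    I0y hg ha hb x x']

theorem I2 (hf : Continuous f) (hb : SP f g L lam b bx bxx bz byy)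
    (hc : SP f g L lam c cx cxx cy cyy) {α : ℝ → ℝ → ℝ} (hα : Continuous (uncurry α)) (x y : ℝ) :
    Ps L α (AA f lam b bxx) c x y = Ps L α b (AA f lam c cxx) x y := by
  rw [Ps_swap hα (AA_cont hf hb) hc.s.c, Ps_swap hα hb.s.c (AA_cont hf hc)]
  congr 1
  funext y'
  have h1 := I0x hf hb hc y y'
  simp only [mul_assoc]
  rw [intervalIntegral.integral_const_mul, intervalIntegral.integral_const_mul, h1]

/-- Linearity in the first factor. -/
theorem Ps_lin1 {a1 a2 b c : ℝ → ℝ → ℝ} (h1 : Continuous (uncurry a1)) (h2 : Continuous (uncurry a2))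
    (hb : Continuous (uncurry b)) (hc : Continuous (uncurry c)) (r : ℝ → ℝ) (x y : ℝ) :
    Ps L (fun x y => a1 x y + r x * a2 x y) b c x y =
      Ps L a1 b c x y + r x * Ps L a2 b c x y := by
  unfold Ps
  have hcon : ∀ α : ℝ → ℝ → ℝ, Continuous (uncurry α) → Continuous fun p : ℝ × ℝ =>
      α x p.2 * b p.1 p.2 * c p.1 y := by
    intro α hα
    have e1 : Continuous fun p : ℝ × ℝ => uncurry α (x, p.2) := hα.comp (by fun_prop)
    have e2 : Continuous fun p : ℝ × ℝ => uncurry b (p.1, p.2) := hb.comp (by fun_prop)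
    have e3 : Continuous fun p : ℝ × ℝ => uncurry c (p.1, y) := hc.comp (by fun_prop)
    exact (e1.mul e2).mul e3
  have hcon2 : ∀ α : ℝ → ℝ → ℝ, Continuous (uncurry α) → Continuous fun x' : ℝ =>
      ∫ y' in (0 : ℝ)..(2 * π), α x y' * b x' y' * c x' y := fun α hα =>
    par_cont (F := fun (x' : ℝ) (y' : ℝ) => α x y' * b x' y' * c x' y) (hcon α hα) _ _
  have k2 : Continuous fun x' : ℝ =>
      r x * ∫ y' in (0 : ℝ)..(2 * π), a2 x y' * b x' y' * c x' y :=
    continuous_const.mul (hcon2 a2 h2)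
  rw [← intervalIntegral.integral_const_mul, ← int_add (hcon2 a1 h1) k2]
  congr 1
  funext x'
  have k3 : Continuous fun y' : ℝ => a1 x y' * b x' y' * c x' y :=
    (hcon a1 h1).comp (Continuous.prodMk_right x')
  have k4 : Continuous fun y' : ℝ => r x * (a2 x y' * b x' y' * c x' y) :=
    continuous_const.mul ((hcon a2 h2).comp (Continuous.prodMk_right x'))
  rw [← intervalIntegral.integral_const_mul, ← int_add k3 k4]
  congr 1
  funext y'
  ring

/-- Linearity in the last factor. -/
theorem Ps_lin3 {a b c1 c2 : ℝ → ℝ → ℝ} (ha : Continuous (uncurry a)) (hb : Continuous (uncurry b))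
    (h1 : Continuous (uncurry c1)) (h2 : Continuous (uncurry c2)) (r : ℝ → ℝ) (x y : ℝ) :
    Ps L a b (fun x y => c1 x y + r y * c2 x y) x y =
      Ps L a b c1 x y + r y * Ps L a b c2 x y := by
  unfold Ps
  have hcon : ∀ γ : ℝ → ℝ → ℝ, Continuous (uncurry γ) → Continuous fun p : ℝ × ℝ =>
      a x p.2 * b p.1 p.2 * γ p.1 y := by
    intro γ hγ
    have e1 : Continuous fun p : ℝ × ℝ => uncurry a (x, p.2) := ha.comp (by fun_prop)
    have e2 : Continuous fun p : ℝ × ℝ => uncurry b (p.1, p.2) := hb.comp (by fun_prop)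
    have e3 : Continuous fun p : ℝ × ℝ => uncurry γ (p.1, y) := hγ.comp (by fun_prop)
    exact (e1.mul e2).mul e3
  have hcon2 : ∀ γ : ℝ → ℝ → ℝ, Continuous (uncurry γ) → Continuous fun x' : ℝ =>
      ∫ y' in (0 : ℝ)..(2 * π), a x y' * b x' y' * γ x' y := fun γ hγ =>
    par_cont (F := fun (x' : ℝ) (y' : ℝ) => a x y' * b x' y' * γ x' y) (hcon γ hγ) _ _
  have k2 : Continuous fun x' : ℝ =>
      r y * ∫ y' in (0 : ℝ)..(2 * π), a x y' * b x' y' * c2 x' y :=
    continuous_const.mul (hcon2 c2 h2)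
  rw [← intervalIntegral.integral_const_mul, ← int_add (hcon2 c1 h1) k2]
  congr 1
  funext x'
  have k3 : Continuous fun y' : ℝ => a x y' * b x' y' * c1 x' y :=
    (hcon c1 h1).comp (Continuous.prodMk_right x')
  have k4 : Continuous fun y' : ℝ => r y * (a x y' * b x' y' * c2 x' y) :=
    continuous_const.mul ((hcon c2 h2).comp (Continuous.prodMk_right x'))
  rw [← intervalIntegral.integral_const_mul, ← int_add k3 k4]
  congr 1
  funext y'
  ring

theorem Ps_neg3 {a b c : ℝ → ℝ → ℝ} (x y : ℝ) :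
    Ps L a b (fun x y => -(c x y)) x y = -Ps L a b c x y := by
  unfold Ps
  rw [← intervalIntegral.integral_neg]
  congr 1
  funext x'
  rw [← intervalIntegral.integral_neg]
  congr 1
  funext y'
  ring

/-- The triple product is a solution. -/
theorem SP_Ps (hf : Continuous f) (hg : Continuous g) (ha : SP f g L lam a ax axx ay ayy)
    (hc : SP f g L lam c cx cxx cy cyy) {β : ℝ → ℝ → ℝ} (hβ : Continuous (uncurry β))
    (hid : ∀ x y, Ps L (AA f lam a axx) β c x y = Ps L a β (AA f lam c cxx) x y) :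
    SP f g L lam (Ps L a β c) (Ps L ax β c) (Ps L axx β c) (Ps L a β cy) (Ps L a β cyy) ∧
      ContDiff ℝ 2 (uncurry (Ps L a β c)) := by
  have A := ha.s
  have C := hc.s
  refine ⟨⟨⟨?_, Ps_cont A.c hβ C.c, Ps_cont A.cx hβ C.c, Ps_cont A.cxx hβ C.c,
    Ps_cont A.c hβ C.cy, Ps_cont A.c hβ C.cyy, Ps_dx A.c A.cx hβ C.c A.dx,
    Ps_dx A.cx A.cxx hβ C.c A.dxx, Ps_dy A.c C.cy hβ C.c C.dy, Ps_dy A.c C.cyy hβ C.cy C.dyy,
    ?_⟩, ?_, ?_⟩, ?_⟩
  · have h1 : Continuous fun p : ℝ × ℝ => lam * (f p.1 + g p.2) := by fun_prop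
    exact h1
  · intro x y
    have h1 : Ps L (AA f lam a axx) β c x y = Ps L axx β c x y + lam * f x * Ps L a β c x y :=
      Ps_lin1 A.cxx A.c hβ C.c (fun x => lam * f x) x y
    have h2 : Ps L a β (AA f lam c cxx) x y =
        -(Ps L a β cyy x y + lam * g y * Ps L a β c x y) := by
      have e : AA f lam c cxx = fun x y => -(cyy x y + lam * g y * c x y) := by
        funext x y
        exact AA_eq hc x y
      rw [e, Ps_neg3, Ps_lin3 A.c hβ C.cyy C.c (fun y => lam * g y) x y]
    have h3 := hid x y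
    rw [h1, h2] at h3
    show Ps L axx β c x y + Ps L a β cyy x y = -(lam * (f x + g y) * Ps L a β c x y)
    linarith
  · intro x y
    unfold Ps
    simp only [ha.px]
  · intro x y
    unfold Ps
    simp only [hc.py]
  · exact contDiff_two_of (Ps_cont A.cxx hβ C.c) (Ps_cont A.cx hβ C.cy) (Ps_cont A.cx hβ C.cy)
      (Ps_cont A.c hβ C.cyy) (Ps_dx A.c A.cx hβ C.c A.dx) (Ps_dy A.c C.cy hβ C.c C.dy)
      (Ps_dx A.cx A.cxx hβ C.c A.dxx) (Ps_dy A.cx C.cy hβ C.c C.dy)
      (Ps_dx A.c A.cx hβ C.cy A.dx) (Ps_dy A.c C.cyy hβ C.cy C.dyy)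

/-- The two applications. -/
theorem SP_Ps1 (hf : Continuous f) (hg : Continuous g) (ha : SP f g L lam a ax axx ay ayy)
    (hb : SP f g L lam b bx bxx bz byy) (hc : SP f g L lam c cx cxx cy cyy) :
    SP f g L lam (Ps L a b c) (Ps L ax b c) (Ps L axx b c) (Ps L a b cy) (Ps L a b cyy) ∧
      ContDiff ℝ 2 (uncurry (Ps L a b c)) :=
  SP_Ps hf hg ha hc hb.s.c fun x y =>
    (I1 hg ha hb c x y).trans (I2 hf hb hc ha.s.c x y)

theorem SP_Ps2 (hf : Continuous f) (hg : Continuous g) (ha : SP f g L lam a ax axx ay ayy)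
    (hb : SP f g L lam b bx bxx bz byy) (hc : SP f g L lam c cx cxx cy cyy) :
    SP f g L lam (Ps L a (AA f lam b bxx) c) (Ps L ax (AA f lam b bxx) c)
      (Ps L axx (AA f lam b bxx) c) (Ps L a (AA f lam b bxx) cy)
      (Ps L a (AA f lam b bxx) cyy) ∧ ContDiff ℝ 2 (uncurry (Ps L a (AA f lam b bxx) c)) :=
  SP_Ps hf hg ha hc (AA_cont hf hb) fun x y =>
    (I2 hf hb hc (AA_cont hf ha) x y).trans (I1 hg ha hb (AA f lam c cxx) x y)

/-- The operator on triple products. -/
theorem AA_Ps (hf : Continuous f) (hg : Continuous g) (ha : SP f g L lam a ax axx ay ayy)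
    (hb : SP f g L lam b bx bxx bz byy) (hc : SP f g L lam c cx cxx cy cyy) (x y : ℝ) :
    AA f lam (Ps L a b c) (Ps L axx b c) x y = Ps L a (AA f lam b bxx) c x y := by
  rw [← I1 hg ha hb c x y]
  exact (Ps_lin1 ha.s.cxx ha.s.c hb.s.c hc.s.c (fun x => lam * f x) x y).symm

end two

end Pool.Agent.R220.LV
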