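import Pool.Agent.R220.LV.Sp
import Pool.Agent.R220.LV.Abs

/-!
# The space of solutions and the operator `∂_x² + lam f` on it
-/

set_option autoImplicit false
set_option linter.unusedVariables false
set_option maxHeartbeats 400000

namespace Pool.Agent.R220.LV

open MeasureTheory Real Pool.Agent.Y291.DB Pool.Agent.Y291.PA Function

variable {f g : ℝ → ℝ} {L lam : ℝ}

theorem SP.zero (hf : Continuous f) (hg : Continuous g) :
    SP f g L lam (fun _ _ => 0) (fun _ _ => 0) (fun _ _ => 0) (fun _ _ => 0) (fun _ _ => 0) := by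
  refine ⟨⟨?_, ?_, ?_, ?_, ?_, ?_, ?_, ?_, ?_, ?_, ?_⟩, ?_, ?_⟩
  · have h1 : Continuous fun p : ℝ × ℝ => lam * (f p.1 + g p.2) := by fun_prop
    exact h1
  all_goals first
    | exact continuous_const
    | exact fun x y => hasDerivAt_const _ _
    | simp

theorem SP.lin {φ φx φxx φy φyy ψ ψx ψxx ψy ψyy : ℝ → ℝ → ℝ}
    (h : SP f g L lam φ φx φxx φy φyy) (k : SP f g L lam ψ ψx ψxx ψy ψyy) (r s : ℝ) :
    SP f g L lam (fun x y => r * φ x y + s * ψ x y) (fun x y => r * φx x y + s * ψx x y)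
      (fun x y => r * φxx x y + s * ψxx x y) (fun x y => r * φy x y + s * ψy x y)
      (fun x y => r * φyy x y + s * ψyy x y) := by
  have hc : ∀ u v : ℝ → ℝ → ℝ, Continuous (uncurry u) → Continuous (uncurry v) →
      Continuous (uncurry fun x y => r * u x y + s * v x y) := by
    intro u v hu hv
    have h1 : Continuous fun p : ℝ × ℝ => r * uncurry u p + s * uncurry v p :=
      (continuous_const.mul hu).add (continuous_const.mul hv)
    exact h1
  have hd : ∀ (u v : ℝ → ℝ) (u' v' t : ℝ), HasDerivAt u u' t → HasDerivAt v v' t →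
      HasDerivAt (fun t => r * u t + s * v t) (r * u' + s * v') t := fun u v u' v' t hu hv =>
    (hu.const_mul r).add (hv.const_mul s)
  refine ⟨⟨h.s.qc, hc _ _ h.s.c k.s.c, hc _ _ h.s.cx k.s.cx, hc _ _ h.s.cxx k.s.cxx,
    hc _ _ h.s.cy k.s.cy, hc _ _ h.s.cyy k.s.cyy, fun x y => hd _ _ _ _ _ (h.s.dx x y) (k.s.dx x y),
    fun x y => hd _ _ _ _ _ (h.s.dxx x y) (k.s.dxx x y),
    fun x y => hd _ _ _ _ _ (h.s.dy x y) (k.s.dy x y),
    fun x y => hd _ _ _ _ _ (h.s.dyy x y) (k.s.dyy x y), ?_⟩, ?_, ?_⟩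
  · intro x y
    have h1 : φxx x y + φyy x y = -(lam * (f x + g y) * φ x y) := h.s.pde x y
    have h2 : ψxx x y + ψyy x y = -(lam * (f x + g y) * ψ x y) := k.s.pde x y
    show r * φxx x y + s * ψxx x y + (r * φyy x y + s * ψyy x y) =
      -(lam * (f x + g y) * (r * φ x y + s * ψ x y))
    linear_combination r * h1 + s * h2
  · intro x y
    simp only [h.px, k.px]
  · intro x y
    simp only [h.py, k.py]

/-- The space of solutions. -/
def W (hf : Continuous f) (hg : Continuous g) (L lam : ℝ) : Submodule ℝ (ℝ × ℝ → ℝ) where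
  carrier := {φ | ContDiff ℝ 2 φ ∧ ∃ φx φxx φy φyy : ℝ → ℝ → ℝ,
    SP f g L lam (fun x y => φ (x, y)) φx φxx φy φyy}
  add_mem' := by
    rintro u v ⟨h1, a1, a2, a3, a4, h2⟩ ⟨h3, b1, b2, b3, b4, h4⟩
    have h5 := h2.lin h4 1 1
    simp only [one_mul] at h5
    exact ⟨h1.add h3, _, _, _, _, h5⟩
  zero_mem' := ⟨contDiff_const, _, _, _, _, SP.zero hf hg⟩
  smul_mem' := by
    rintro r u ⟨h1, a1, a2, a3, a4, h2⟩
    have h5 := h2.lin (SP.zero hf hg) r 0
    simp only [mul_zero, add_zero] at h5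
    exact ⟨contDiff_const.mul h1, _, _, _, _, h5⟩

variable {hf : Continuous f} {hg : Continuous g}

/-- The operator. -/
noncomputable def Aop (f : ℝ → ℝ) (lam : ℝ) (φ : ℝ × ℝ → ℝ) (p : ℝ × ℝ) : ℝ :=
  iteratedDeriv 2 (fun t => φ (t, p.2)) p.1 + lam * f p.1 * φ p

theorem Aop_eq {φ : ℝ × ℝ → ℝ} {φx φxx φy φyy : ℝ → ℝ → ℝ}
    (h : SP f g L lam (fun x y => φ (x, y)) φx φxx φy φyy) (x y : ℝ) :
    Aop f lam φ (x, y) = AA f lam (fun x y => φ (x, y)) φxx x y := by
  unfold Aop AA
  simp only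
  rw [Pool.Agent.R220.TI.iter2 (fun t => h.s.dx t y) (h.s.dxx x y)]

/-- The inner product. -/
noncomputable def ip (L : ℝ) (u v : ℝ × ℝ → ℝ) : ℝ :=
  ∫ y in (0 : ℝ)..(2 * π), ∫ x in (0 : ℝ)..L, u (x, y) * v (x, y)

theorem zero_int {h : ℝ → ℝ} (hc : Continuous h) (h0 : ∀ x, 0 ≤ h x) {P : ℝ} (hP : 0 < P)
    (hI : ∫ t in (0 : ℝ)..P, h t = 0) : ∀ x ∈ Set.Icc 0 P, h x = 0 := by
  intro x hx
  by_contra h1
  have h2 := intervalIntegral.integral_pos hP hc.continuousOn (fun x _ => h0 x)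
    ⟨x, hx, lt_of_le_of_ne (h0 x) (Ne.symm h1)⟩
  linarith

theorem zero_of_slices {u : ℝ → ℝ → ℝ} (hc : Continuous (uncurry u)) (hL : 0 < L)
    (px : ∀ x y, u (x + L) y = u x y) (py : ∀ x y, u x (y + 2 * π) = u x y)
    (h : ∀ y ∈ Set.Icc 0 (2 * π), ∫ x in (0 : ℝ)..L, u x y * u x y = 0) (x y : ℝ) : u x y = 0 := by
  have h1 : Function.Periodic (fun y => u x y) (2 * π) := fun y => py x y
  obtain ⟨y', hy', e1⟩ := h1.exists_mem_Ico₀ (by positivity) y
  have h2 : Function.Periodic (fun x => u x y') L := fun x => px x y'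
  obtain ⟨x', hx', e2⟩ := h2.exists_mem_Ico₀ hL x
  have e1' : u x y = u x y' := e1
  have e2' : u x y' = u x' y' := e2
  rw [e1', e2']
  have cu : Continuous fun t => u t y' := hc.comp (Continuous.prodMk_left y')
  have h3 := zero_int (h := fun t => u t y' * u t y') (cu.mul cu)
    (fun t => mul_self_nonneg _) hL (h y' ⟨hy'.1, hy'.2.le⟩) x' ⟨hx'.1, hx'.2.le⟩
  exact mul_self_eq_zero.1 h3

theorem ip_self_zero (hL : 0 < L) {u : ℝ × ℝ → ℝ} (hu : u ∈ W hf hg L lam)
    (h : ip L u u = 0) : u = 0 := by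
  obtain ⟨h1, φx, φxx, φy, φyy, h2⟩ := hu
  have hcu : Continuous (uncurry fun x y => u (x, y)) := h2.s.c
  funext p
  refine zero_of_slices hcu hL h2.px h2.py ?_ p.1 p.2
  have hc2 : Continuous fun y => ∫ x in (0 : ℝ)..L, u (x, y) * u (x, y) :=
    par_cont (F := fun y x => u (x, y) * u (x, y))
      (by
        have e1 : Continuous fun p : ℝ × ℝ => u (p.2, p.1) := h1.continuous.comp (by fun_prop)
        exact e1.mul e1) _ _
  exact zero_int hc2 (fun y => intervalIntegral.integral_nonneg hL.le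
    fun x _ => mul_self_nonneg _) (by positivity) h

theorem ip_cont {u v : ℝ × ℝ → ℝ} (hu : Continuous u) (hv : Continuous v) :
    Continuous fun y => ∫ x in (0 : ℝ)..L, u (x, y) * v (x, y) :=
  par_cont (F := fun y x => u (x, y) * v (x, y))
    (by
      have e1 : Continuous fun p : ℝ × ℝ => u (p.2, p.1) := hu.comp (by fun_prop)
      have e2 : Continuous fun p : ℝ × ℝ => v (p.2, p.1) := hv.comp (by fun_prop)
      exact e1.mul e2) _ _

theorem W_cont {u : ℝ × ℝ → ℝ} (hu : u ∈ W hf hg L lam) : Continuous u := hu.1.continuous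

/-- The core. -/
noncomputable def core (hf : Continuous f) (hg : Continuous g) (hL : 0 < L) (lam : ℝ) :
    InnerProductSpace.Core ℝ (W hf hg L lam) where
  inner u v := ip L u.1 v.1
  conj_inner_symm u v := by
    simp only [conj_trivial]
    unfold ip
    simp only [mul_comm]
  re_inner_nonneg u := by
    simp only [RCLike.re_to_real]
    exact intervalIntegral.integral_nonneg (by positivity) fun y _ =>
      intervalIntegral.integral_nonneg hL.le fun x _ => mul_self_nonneg _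
  add_left u v w := by
    have hu := W_cont u.2
    have hv := W_cont v.2
    have hw := W_cont w.2
    show ip L (u.1 + v.1) w.1 = ip L u.1 w.1 + ip L v.1 w.1
    unfold ip
    rw [← int_add (ip_cont hu hw) (ip_cont hv hw)]
    congr 1
    funext y
    have k1 : Continuous fun x => u.1 (x, y) * w.1 (x, y) :=
      (hu.comp (Continuous.prodMk_left y)).mul (hw.comp (Continuous.prodMk_left y))
    have k2 : Continuous fun x => v.1 (x, y) * w.1 (x, y) :=
      (hv.comp (Continuous.prodMk_left y)).mul (hw.comp (Continuous.prodMk_left y))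
    rw [← int_add k1 k2]
    congr 1
    funext x
    simp only [Pi.add_apply]
    ring
  smul_left u v r := by
    show ip L (r • u.1) v.1 = (starRingEnd ℝ) r * ip L u.1 v.1
    simp only [conj_trivial]
    unfold ip
    rw [← intervalIntegral.integral_const_mul]
    congr 1
    funext y
    rw [← intervalIntegral.integral_const_mul]
    congr 1
    funext x
    simp only [Pi.smul_apply, smul_eq_mul]
    ring
  definite u h := Subtype.ext (ip_self_zero hL u.2 h)

/-- The triple product as an element of the space. -/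
theorem Ps_mem (hf : Continuous f) (hg : Continuous g) {a b c : ℝ × ℝ → ℝ}
    (ha : a ∈ W hf hg L lam) (hb : b ∈ W hf hg L lam) (hc : c ∈ W hf hg L lam) :
    (fun p : ℝ × ℝ => Ps L (fun x y => a (x, y)) (fun x y => b (x, y)) (fun x y => c (x, y))
      p.1 p.2) ∈ W hf hg L lam := by
  obtain ⟨a0, a1, a2, a3, a4, ha⟩ := ha
  obtain ⟨b0, b1, b2, b3, b4, hb⟩ := hb
  obtain ⟨c0, c1, c2, c3, c4, hc⟩ := hc
  obtain ⟨h1, h2⟩ := SP_Ps1 hf hg ha hb hc
  exact ⟨h2, _, _, _, _, h1⟩

theorem Ps_mem2 (hf : Continuous f) (hg : Continuous g) {a b c : ℝ × ℝ → ℝ}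
    (ha : a ∈ W hf hg L lam) (hb : b ∈ W hf hg L lam) (hc : c ∈ W hf hg L lam) :
    Aop f lam (fun p : ℝ × ℝ => Ps L (fun x y => a (x, y)) (fun x y => b (x, y))
      (fun x y => c (x, y)) p.1 p.2) ∈ W hf hg L lam := by
  obtain ⟨a0, a1, a2, a3, a4, ha⟩ := ha
  obtain ⟨b0, b1, b2, b3, b4, hb⟩ := hb
  obtain ⟨c0, c1, c2, c3, c4, hc⟩ := hc
  obtain ⟨h1, h2⟩ := SP_Ps1 hf hg ha hb hc
  obtain ⟨h3, h4⟩ := SP_Ps2 hf hg ha hb hc
  have e : Aop f lam (fun p : ℝ × ℝ => Ps L (fun x y => a (x, y)) (fun x y => b (x, y))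
      (fun x y => c (x, y)) p.1 p.2) = fun p : ℝ × ℝ =>
      Ps L (fun x y => a (x, y)) (AA f lam (fun x y => b (x, y)) b2) (fun x y => c (x, y))
        p.1 p.2 := by
    funext p
    rw [show p = (p.1, p.2) from rfl, Aop_eq h1]
    exact AA_Ps hf hg ha hb hc p.1 p.2
  rw [e]
  exact ⟨h4, _, _, _, _, h3⟩

/-- A solution orthogonal to its triple product vanishes. -/
theorem orth (hL : 0 < L) {u : ℝ × ℝ → ℝ} (hu : u ∈ W hf hg L lam)
    (h : ip L (fun p : ℝ × ℝ => Ps L (fun x y => u (x, y)) (fun x y => u (x, y))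
      (fun x y => u (x, y)) p.1 p.2) u = 0) : u = 0 := by
  have hcu := W_cont hu
  obtain ⟨h1, φx, φxx, φy, φyy, h2⟩ := hu
  set H : ℝ → ℝ → ℝ := fun y' y => ∫ x' in (0 : ℝ)..L, u (x', y') * u (x', y) with hH
  have cH : Continuous (uncurry H) := by
    refine par_cont (F := fun (p : ℝ × ℝ) (x' : ℝ) => u (x', p.1) * u (x', p.2)) ?_ _ _
    have e1 : Continuous fun q : (ℝ × ℝ) × ℝ => u (q.2, q.1.1) := hcu.comp (by fun_prop)
    have e2 : Continuous fun q : (ℝ × ℝ) × ℝ => u (q.2, q.1.2) := hcu.comp (by fun_prop)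
    exact e1.mul e2
  have hPs : ∀ x y, Ps L (fun x y => u (x, y)) (fun x y => u (x, y)) (fun x y => u (x, y)) x y =
      ∫ y' in (0 : ℝ)..(2 * π), u (x, y') * H y' y := by
    intro x y
    have k : Continuous (uncurry fun x y => u (x, y)) := hcu
    rw [Ps_swap k k k]
    congr 1
    funext y'
    simp only [mul_assoc]
    rw [intervalIntegral.integral_const_mul]
  have hkey : ip L (fun p : ℝ × ℝ => Ps L (fun x y => u (x, y)) (fun x y => u (x, y))
      (fun x y => u (x, y)) p.1 p.2) u =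
      ∫ y in (0 : ℝ)..(2 * π), ∫ y' in (0 : ℝ)..(2 * π), H y' y * H y' y := by
    unfold ip
    congr 1
    funext y
    simp only [hPs]
    have e1 : ∀ x, (∫ y' in (0 : ℝ)..(2 * π), u (x, y') * H y' y) * u (x, y) =
        ∫ y' in (0 : ℝ)..(2 * π), H y' y * (u (x, y') * u (x, y)) := by
      intro x
      rw [← intervalIntegral.integral_mul_const]
      congr 1
      funext y'
      ring
    simp only [e1]
    rw [swap]
    · congr 1
      funext y'
      rw [intervalIntegral.integral_const_mul]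
    · have k1 : Continuous fun q : ℝ × ℝ => uncurry H (q.2, y) := cH.comp (by fun_prop)
      have k2 : Continuous fun q : ℝ × ℝ => u (q.1, q.2) := hcu.comp (by fun_prop)
      have k3 : Continuous fun q : ℝ × ℝ => u (q.1, y) := hcu.comp (by fun_prop)
      exact k1.mul (k2.mul k3)
  rw [hkey] at h
  have h3 : Continuous fun y => ∫ y' in (0 : ℝ)..(2 * π), H y' y * H y' y := by
    refine par_cont (F := fun (y y' : ℝ) => H y' y * H y' y) ?_ _ _
    have k1 : Continuous fun q : ℝ × ℝ => uncurry H (q.2, q.1) := cH.comp (by fun_prop)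
    exact k1.mul k1
  have h4 := zero_int h3 (fun y => intervalIntegral.integral_nonneg (by positivity)
    fun x _ => mul_self_nonneg _) (by positivity) h
  funext p
  refine zero_of_slices (L := L) (u := fun x y => u (x, y)) hcu hL h2.px h2.py ?_ p.1 p.2
  intro y hy
  have k1 : Continuous fun y' => H y' y := cH.comp (Continuous.prodMk_left y)
  have h5 := zero_int (h := fun y' => H y' y * H y' y) (k1.mul k1)
    (fun t => mul_self_nonneg _) (by positivity) (h4 y hy) y hy
  exact mul_self_eq_zero.1 h5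

theorem core_inner (hf : Continuous f) (hg : Continuous g) (hL : 0 < L) (lam : ℝ)
    (u v : W hf hg L lam) : (core hf hg hL lam).inner u v = ip L u.1 v.1 := rfl

theorem Aop_add {x y : ℝ × ℝ → ℝ} (hx : x ∈ W hf hg L lam) (hy : y ∈ W hf hg L lam) :
    Aop f lam (x + y) = Aop f lam x + Aop f lam y := by
  obtain ⟨x0, x1, x2, x3, x4, hx⟩ := hx
  obtain ⟨y0, y1, y2, y3, y4, hy⟩ := hy
  have h1 := hx.lin hy 1 1
  simp only [one_mul] at h1
  funext p
  have e0 := Aop_eq (φ := x + y) h1 p.1 p.2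
  have e1 := Aop_eq hx p.1 p.2
  have e2 := Aop_eq hy p.1 p.2
  have e3 : (Aop f lam x + Aop f lam y) p = Aop f lam x (p.1, p.2) + Aop f lam y (p.1, p.2) := rfl
  rw [e3, e1, e2]
  have e4 : Aop f lam (x + y) p = Aop f lam (x + y) (p.1, p.2) := rfl
  rw [e4, e0]
  unfold AA
  simp only [Pi.add_apply]
  ring

theorem Aop_smul {x : ℝ × ℝ → ℝ} (hx : x ∈ W hf hg L lam) (r : ℝ) :
    Aop f lam (r • x) = r • Aop f lam x := by
  obtain ⟨x0, x1, x2, x3, x4, hx⟩ := hx
  have h1 := hx.lin (SP.zero hf hg) r 0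
  simp only [mul_zero, add_zero] at h1
  funext p
  have e0 := Aop_eq (φ := r • x) h1 p.1 p.2
  have e1 := Aop_eq hx p.1 p.2
  have e3 : (r • Aop f lam x) p = r * Aop f lam x (p.1, p.2) := rfl
  rw [e3, e1]
  have e4 : Aop f lam (r • x) p = Aop f lam (r • x) (p.1, p.2) := rfl
  rw [e4, e0]
  unfold AA
  simp only [Pi.smul_apply, smul_eq_mul]
  ring

theorem Aop_zero : Aop f lam (0 : ℝ × ℝ → ℝ) = 0 := by
  funext p
  have e : (fun t : ℝ => (0 : ℝ × ℝ → ℝ) (t, p.2)) = fun _ => (0 : ℝ) := rfl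
  unfold Aop
  rw [e, Pool.Agent.R220.TI.iter2 (f' := fun _ => 0) (f'' := 0) (fun t => hasDerivAt_const _ _)
    (hasDerivAt_const _ _)]
  simp

/-- The elements mapped into the space. -/
def Good (hf : Continuous f) (hg : Continuous g) (L lam : ℝ) : Submodule ℝ (W hf hg L lam) where
  carrier := {w | Aop f lam w.1 ∈ W hf hg L lam}
  add_mem' := by
    intro x y hx hy
    have h1 : Aop f lam (x.1 + y.1) ∈ W hf hg L lam := by
      rw [Aop_add x.2 y.2]
      exact Submodule.add_mem _ hx hy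
    exact h1
  zero_mem' := by
    have h1 : Aop f lam (0 : ℝ × ℝ → ℝ) ∈ W hf hg L lam := by
      rw [Aop_zero]
      exact Submodule.zero_mem _
    exact h1
  smul_mem' := by
    intro r x hx
    have h1 : Aop f lam (r • x.1) ∈ W hf hg L lam := by
      rw [Aop_smul x.2 r]
      exact Submodule.smul_mem _ _ hx
    exact h1

/-- The operator preserves the space. -/
theorem A_mem (hf : Continuous f) (hg : Continuous g) (hL : 0 < L)
    [FiniteDimensional ℝ (W hf hg L lam)] {u : ℝ × ℝ → ℝ} (hu : u ∈ W hf hg L lam) :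
    Aop f lam u ∈ W hf hg L lam := by
  have htop : Good hf hg L lam = ⊤ := by
    refine abs_top (core hf hg hL lam) (Good hf hg L lam) ?_
    intro v hv
    have h1 := hv ⟨_, Ps_mem hf hg v.2 v.2 v.2⟩ (Ps_mem2 hf hg v.2 v.2 v.2)
    rw [core_inner] at h1
    exact Subtype.ext (orth hL v.2 h1)
  have h2 : (⟨u, hu⟩ : W hf hg L lam) ∈ Good hf hg L lam := by
    rw [htop]
    exact Submodule.mem_top
  exact h2

end Pool.Agent.R220.LV
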